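import Pool.Agent.Lib.MP_6ff8d9_an_h23.N2Rows

/-!
# MP_6ff8d9, dimension 2: the extreme points of `N(𝔹₂)` with a continuous symmetry

Definitions and rows.  Notation: `u = (1+iz₀)/(1-iz₀)`, `v = z₁/(1-iz₀)` (hyperbolic) or
`u = (1+z₀)/(1-z₀)`, `v = z₁/(1-z₀)` (parabolic); the ball is `|v|² < Re u` in both cases.
-/

open Metric Filter Topology MvPolynomial Matrix
open scoped ComplexConjugate

namespace Pool.Agent.Lib.MP_6ff8d9_an.N2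

open Pool.Agent.Lib.MP_6ff8d9_an Pool.Agent.Lib.MP_6ff8d9_an.H22

noncomputable section

/-! ## The two transcendental families -/

/-- `k_θ = (1+θ²)^{1/4} e^{-θ arctan θ / 2}` -/
def kH (θ : ℝ) : ℝ := √(√(1 + θ ^ 2)) * Real.exp (-(θ * Real.arctan θ) / 2)

/-- `F_θ = k_θ z₁ (1+iz₀)^{-(1+iθ)/2} (1-iz₀)^{-(1-iθ)/2}` (principal logarithms) -/
def fH (θ : ℝ) (z : Fin 2 → ℂ) : ℂ :=
  (kH θ : ℂ) * z 1 *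
    Complex.exp (-((1 + θ * Complex.I) / 2 * Complex.log (1 + Complex.I * z 0)) -
      (1 - θ * Complex.I) / 2 * Complex.log (1 - Complex.I * z 0))

/-- `κ_m v e^{-mu}`, `κ_m = √(2me)` -/
def fPm (m : ℝ) (z : Fin 2 → ℂ) : ℂ :=
  ((√(2 * m * Real.exp 1) : ℝ) : ℂ) * (z 1 / (1 - z 0)) *
    Complex.exp (-(m * ((1 + z 0) / (1 - z 0))))

/-- `√(2e) z₁/(1-z₀) exp(-(1+z₀)/(1-z₀))` -/
def fP (z : Fin 2 → ℂ) : ℂ :=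
  ((√(2 * Real.exp 1) : ℝ) : ℂ) * (z 1 / (1 - z 0)) * Complex.exp (-((1 + z 0) / (1 - z 0)))

/-- `(1+cF)/(1-cF)` -/
def cay (F : (Fin 2 → ℂ) → ℂ) (c : ℂ) (z : Cn 2) : ℂ :=
  (1 + c * F (fun i => z i)) / (1 - c * F (fun i => z i))

/-- the action of a matrix on `Cn 2` -/
def actC (A : Matrix (Fin 3) (Fin 3) ℂ) (z : Cn 2) : Cn 2 :=
  WithLp.toLp 2 (act A (fun i => z i))

/-- `g` is invariant under a nontrivial one-parameter group of automorphisms of the ball,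
`z ↦ exp(isT)·z`, `T` selfadjoint for the form `-|Z₀|²+|Z₁|²+|Z₂|²` and not scalar -/
def Sym (g : Cn 2 → ℂ) : Prop :=
  ∃ T : Matrix (Fin 3) (Fin 3) ℂ, dag T = T ∧
    (∀ c : ℂ, T ≠ c • (1 : Matrix (Fin 3) (Fin 3) ℂ)) ∧
    ∀ z ∈ ball (0 : Cn 2) 1, ∀ s : ℝ, g (actC (grp T (s * Complex.I)) z) = g z

/-- the complete list of the symmetric extreme points -/
def ListFour (G : Cn 2 → ℂ) : Prop :=
  (∃ (a b : ℕ) (c : ℂ), 1 ≤ a ∧ 1 ≤ b ∧ a.Coprime b ∧ Sharp a b c ∧ G = gmon a b c) ∨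
    (∃ c : ℂ, ‖c‖ = 1 ∧ G = cay fX c) ∨
    (∃ (θ : ℝ) (c : ℂ), ‖c‖ = 1 ∧ G = cay (fH θ) c) ∨
    ∃ c : ℂ, ‖c‖ = 1 ∧ G = cay fP c

/-! ## Charts -/

/-- a chart of the ball adapted to `F`: `w` is the value of `F`, `ζ` the coordinate on the fibre,
which is the strip `Im ζ ∈ I w` -/
structure FChart (F : (Fin 2 → ℂ) → ℂ) (Ps : ℂ → ℂ → Fin 2 → ℂ) (I : ℂ → Set ℝ) (y₀ δ : ℝ) :
    Prop where
  δpos : 0 < δ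
  dF : DifferentiableOn ℂ F (Bn 2)
  lt : ∀ z ∈ Bn 2, ‖F z‖ < 1
  zero : F 0 = 0
  opn : ∀ w, ‖w‖ < 1 → IsOpen (I w)
  conn : ∀ w, ‖w‖ < 1 → (I w).OrdConnected
  sub : ∀ w, ‖w‖ < 1 → ∀ y : ℝ, |y - y₀| < δ * √(1 - ‖w‖ ^ 2) → y ∈ I w
  mem : ∀ w ζ : ℂ, ‖w‖ < 1 → ζ.im ∈ I w → Ps w ζ ∈ Bn 2
  val : ∀ w ζ : ℂ, ‖w‖ < 1 → ζ.im ∈ I w → F (Ps w ζ) = w
  dz : ∀ w, ‖w‖ < 1 → DifferentiableOn ℂ (Ps w) {ζ : ℂ | ζ.im ∈ I w}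
  dw : ∀ ζ : ℂ, ζ.im = y₀ → DifferentiableOn ℂ (fun w => Ps w ζ) (ball 0 1)
  surj : ∀ z ∈ Bn 2, ∃ ζ : ℂ, ζ.im ∈ I (F z) ∧ Ps (F z) ζ = z

/-- hyperbolic chart: `u = e^ζ`, `v = w e^{ζ(1+iθ)/2}/k_θ`, `z₀ = -i(u-1)/(u+1)`,
`z₁ = 2v/(u+1)` -/
def psH (θ : ℝ) (w ζ : ℂ) : Fin 2 → ℂ :=
  ![-Complex.I * ((Complex.exp ζ - 1) / (Complex.exp ζ + 1)),
    2 * (w * Complex.exp (ζ * ((1 + θ * Complex.I) / 2)) / kH θ) / (Complex.exp ζ + 1)]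

def iH (θ : ℝ) (w : ℂ) : Set ℝ :=
  {y | |y| < Real.pi / 2 ∧ ‖w‖ ^ 2 < kH θ ^ 2 * (Real.cos y * Real.exp (θ * y))}

/-- parabolic chart: `u = -iζ`, `v = w e^{mu}/κ_m`, `z₀ = (u-1)/(u+1)`, `z₁ = 2v/(u+1)` -/
def psP (m : ℝ) (w ζ : ℂ) : Fin 2 → ℂ :=
  ![(-Complex.I * ζ - 1) / (-Complex.I * ζ + 1),
    2 * (w * Complex.exp (m * (-Complex.I * ζ)) / ((√(2 * m * Real.exp 1) : ℝ) : ℂ)) /
      (-Complex.I * ζ + 1)]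

def iP (m : ℝ) (w : ℂ) : Set ℝ :=
  {y | 0 < y ∧ ‖w‖ ^ 2 < 2 * m * Real.exp 1 * (y * Real.exp (-(2 * m * y)))}

/-- Heisenberg chart: `X = (1+w)/(1-w)`, `v = ζ`, `u = X + ζ²` -/
def psN (w ζ : ℂ) : Fin 2 → ℂ :=
  ![((1 + w) / (1 - w) + ζ ^ 2 - 1) / ((1 + w) / (1 - w) + ζ ^ 2 + 1),
    2 * ζ / ((1 + w) / (1 - w) + ζ ^ 2 + 1)]

def iN (w : ℂ) : Set ℝ := {y | 2 * y ^ 2 < ((1 + w) / (1 - w)).re}

/-! ## Rows -/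

/-- S1: a function with a chart is extreme -/
def CHX : Prop := ∀ (F : (Fin 2 → ℂ) → ℂ) (Ps : ℂ → ℂ → Fin 2 → ℂ) (I : ℂ → Set ℝ) (y₀ δ : ℝ),
  FChart F Ps I y₀ δ → ∀ c : ℂ, ‖c‖ = 1 → IsExtremePoint 2 (cay F c)

/-- S2: a function invariant under the real translations of the fibres is a function of `F` -/
def CHI : Prop := ∀ (F : (Fin 2 → ℂ) → ℂ) (Ps : ℂ → ℂ → Fin 2 → ℂ) (I : ℂ → Set ℝ) (y₀ δ : ℝ),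
  FChart F Ps I y₀ δ → ∀ f : (Fin 2 → ℂ) → ℂ, DifferentiableOn ℂ f (Bn 2) →
  (∀ w ζ : ℂ, ‖w‖ < 1 → ζ.im ∈ I w → ∀ x : ℝ, f (Ps w (ζ + x)) = f (Ps w ζ)) →
  ∀ z ∈ Bn 2, f z = f (Ps (F z) (y₀ * Complex.I))

/-- S3: the hyperbolic chart -/
def CHH : Prop := ∀ θ : ℝ, ∃ δ : ℝ, FChart (fH θ) (psH θ) (iH θ) (Real.arctan θ) δ

/-- S4: the parabolic chart -/
def CHP : Prop := ∀ m : ℝ, 0 < m → ∃ δ : ℝ, FChart (fPm m) (psP m) (iP m) (1 / (2 * m)) δ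

/-- S5: the Heisenberg chart -/
def CHN : Prop := ∃ δ : ℝ, FChart fX psN iN 0 δ

/-- S6: the three flows are real translations in the charts -/
def FLH : Prop := ∀ τ b : ℝ, b ≠ 0 → ∀ w ζ : ℂ, ‖w‖ < 1 → ζ.im ∈ iH (τ / b) w → ∀ s : ℝ,
  act (grp (hmat τ b) (s * Complex.I)) (psH (τ / b) w ζ) =
    psH (τ / b) w (ζ + ((-(2 * s * b) : ℝ) : ℂ))

def FLP : Prop := ∀ τ b : ℝ, b ≠ 0 → τ * b < 0 → ∀ w ζ : ℂ, ‖w‖ < 1 →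
  ζ.im ∈ iP (-τ / (2 * b)) w → ∀ s : ℝ,
  act (grp (pmat τ b) (s * Complex.I)) (psP (-τ / (2 * b)) w ζ) =
    psP (-τ / (2 * b)) w (ζ + ((-(2 * s * b) : ℝ) : ℂ))

def FLN : Prop := ∀ c : ℝ, c ≠ 0 → ∀ w ζ : ℂ, ‖w‖ < 1 → ζ.im ∈ iN w → ∀ s : ℝ,
  act (grp (nmat c) (s * Complex.I)) (psN w ζ) = psN w (ζ + ((-(s * c) : ℝ) : ℂ))

/-- S7: parabolic flow with the wrong sign: constant -/
def KPC : Prop := ∀ (f : (Fin 2 → ℂ) → ℂ) (τ b : ℝ), b ≠ 0 → 0 ≤ τ * b →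
  DifferentiableOn ℂ f (Bn 2) → (∀ z ∈ Bn 2, ‖f z‖ < 1) →
  (∀ z ∈ Bn 2, ∀ s : ℝ, f (act (grp (pmat τ b) (s * Complex.I)) z) = f z) →
  ∀ z ∈ Bn 2, f z = f 0

/-- S8: rotation in one coordinate -/
def AXI : Prop := ∀ (f : (Fin 2 → ℂ) → ℂ) (β : ℝ), DifferentiableOn ℂ f (Bn 2) → β ≠ 0 →
  ((∀ z ∈ Bn 2, ∀ s : ℝ, f ![z 0, Complex.exp (s * β * Complex.I) * z 1] = f z) →
    ∀ z ∈ Bn 2, f z = f ![z 0, 0]) ∧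
  ((∀ z ∈ Bn 2, ∀ s : ℝ, f ![Complex.exp (s * β * Complex.I) * z 0, z 1] = f z) →
    ∀ z ∈ Bn 2, f z = f ![0, z 1])

/-- S9: functions of one variable are not extreme (`k = z_j²/(1-cz_i)²`) -/
def DEG : Prop := ∀ (i : Fin 2) (c : ℂ), ‖c‖ = 1 →
  ¬ IsExtremePoint 2 (fun z => (1 + c * z i) / (1 - c * z i))

/-- S10: the torus action -/
def TACT : Prop := ∀ (t : Fin 3 → ℝ) (z : Fin 2 → ℂ) (s : ℝ),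
  act (grp (Matrix.diagonal (fun i => (t i : ℂ))) (s * Complex.I)) z =
    ![Complex.exp (s * (t 1 - t 0 : ℝ) * Complex.I) * z 0,
      Complex.exp (s * (t 2 - t 0 : ℝ) * Complex.I) * z 1]

/-- S11: conjugation of the flow -/
def GCON : Prop := ∀ (T S A : Matrix (Fin 3) (Fin 3) ℂ) (μ : ℂ), Aᴴ * J3 * A = J3 → dag T = T →
  T * A = A * (μ • (1 : Matrix (Fin 3) (Fin 3) ℂ) + S) →
  (∀ (s : ℝ), (grp T (s * Complex.I))ᴴ * J3 * grp T (s * Complex.I) = J3) ∧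
  ∀ z ∈ Bn 2, ∀ s : ℝ, act A (act (grp S (s * Complex.I)) z) =
    act (grp T (s * Complex.I)) (act A z)

/-- S12: the dilation of the parabolic chart -/
def DIL : Prop := ∀ m : ℝ, 0 < m → ∃ D : Matrix (Fin 3) (Fin 3) ℂ, Dᴴ * J3 * D = J3 ∧
  ∀ z ∈ Bn 2, fPm m (act D z) = fP z

/-- S13: normal forms without cyclicity -/
def NFE2 : Prop := ∀ T : Matrix (Fin 3) (Fin 3) ℂ, dag T = T →
  (∃ (v : Fin 3 → ℂ) (t : ℂ), T *ᵥ v = t • v ∧ (herm v v).re < 0) →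
  ∃ (A : Matrix (Fin 3) (Fin 3) ℂ) (t : Fin 3 → ℝ), Aᴴ * J3 * A = J3 ∧
    T * A = A * Matrix.diagonal (fun i => (t i : ℂ))

def NFB2 : Prop := ∀ T : Matrix (Fin 3) (Fin 3) ℂ, dag T = T →
  (∀ (v : Fin 3 → ℂ) (t : ℂ), T *ᵥ v = t • v → 0 ≤ (herm v v).re) →
  (∃ (v : Fin 3 → ℂ) (t : ℂ), T *ᵥ v = t • v ∧ 0 < (herm v v).re) →
  ∃ (A : Matrix (Fin 3) (Fin 3) ℂ) (μ τ b : ℝ), Aᴴ * J3 * A = J3 ∧ b ≠ 0 ∧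
    (T * A = A * ((μ : ℂ) • (1 : Matrix (Fin 3) (Fin 3) ℂ) + hmat τ b) ∨
      T * A = A * ((μ : ℂ) • (1 : Matrix (Fin 3) (Fin 3) ℂ) + pmat τ b))

def NFN2 : Prop := ∀ T : Matrix (Fin 3) (Fin 3) ℂ, dag T = T →
  (∀ (v : Fin 3 → ℂ) (t : ℂ), T *ᵥ v = t • v → (herm v v).re = 0) →
  ∃ (A : Matrix (Fin 3) (Fin 3) ℂ) (μ c : ℝ), Aᴴ * J3 * A = J3 ∧ c ≠ 0 ∧
    T * A = A * ((μ : ℂ) • (1 : Matrix (Fin 3) (Fin 3) ℂ) + nmat c)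

/-- S14: the members of the list are symmetric -/
def SYMG : Prop := ∀ G : Cn 2 → ℂ, ListFour G → Sym G

/-- S15: symmetry is invariant under the group -/
def SYMA : Prop := ∀ (G : Cn 2 → ℂ) (A : Matrix (Fin 3) (Fin 3) ℂ), Aᴴ * J3 * A = J3 → Sym G →
  Sym (nrm G (actC A))

/-- S16: Cartan's theorem: the automorphisms of the ball are given by matrices -/
def CARTAN : Prop := ∀ φ ψ : Cn 2 → Cn 2, BallAut 2 φ ψ →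
  ∃ A : Matrix (Fin 3) (Fin 3) ℂ, Aᴴ * J3 * A = J3 ∧ ∀ z ∈ ball (0 : Cn 2) 1, φ z = actC A z

/-- the final theorem: all extreme points of `N(𝔹₂)` with a continuous symmetry -/
def FINALSYM : Prop := ∀ g : Cn 2 → ℂ, (IsExtremePoint 2 g ∧ Sym g) ↔
  ∃ (G : Cn 2 → ℂ) (φ ψ : Cn 2 → Cn 2), ListFour G ∧ BallAut 2 φ ψ ∧
    ∀ z ∈ ball (0 : Cn 2) 1, g z = nrm G φ z

end

end Pool.Agent.Lib.MP_6ff8d9_an.N2
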