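import Pool.Agent.Lib.MP_6ff8d9_an_h8.SymB

/-!
# MP_6ff8d9, dimension 2: the symmetric extreme points, assembly, part three
-/

open Metric Filter Topology MvPolynomial Matrix
open scoped ComplexConjugate

namespace Pool.Agent.Lib.MP_6ff8d9_an.N2

open Pool.Agent.Lib.MP_6ff8d9_an Pool.Agent.Lib.MP_6ff8d9_an.H22

noncomputable section

lemma axis0_diff : Differentiable ℂ (fun w : ℂ => (![w, 0] : Fin 2 → ℂ)) := by
  rw [differentiable_pi]
  intro i
  fin_cases i
  · exact differentiable_id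
  · exact differentiable_const _

lemma axis1_diff : Differentiable ℂ (fun w : ℂ => (![0, w] : Fin 2 → ℂ)) := by
  rw [differentiable_pi]
  intro i
  fin_cases i
  · exact differentiable_const _
  · exact differentiable_id

lemma axis0_mem : ∀ w ∈ ball (0 : ℂ) 1, (![w, 0] : Fin 2 → ℂ) ∈ Bn 2 := by
  intro w hw'
  rw [mem_ball_zero_iff] at hw'
  rw [mem_Bn2]
  simp only [Matrix.cons_val_zero, Matrix.cons_val_one, norm_zero]
  nlinarith [norm_nonneg w]

lemma axis1_mem : ∀ w ∈ ball (0 : ℂ) 1, (![0, w] : Fin 2 → ℂ) ∈ Bn 2 := by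
  intro w hw'
  rw [mem_ball_zero_iff] at hw'
  rw [mem_Bn2]
  simp only [Matrix.cons_val_zero, Matrix.cons_val_one, norm_zero]
  nlinarith [norm_nonneg w]

lemma im_real_mul_I (x : ℝ) : ((x : ℂ) * Complex.I).im = x := by simp

lemma scalar_of {T A : Matrix (Fin 3) (Fin 3) ℂ} (hA : JU A) {c : ℂ}
    (h : T * A = A * (c • (1 : Matrix (Fin 3) (Fin 3) ℂ))) :
    T = c • (1 : Matrix (Fin 3) (Fin 3) ℂ) := by
  have h1 : T * A * A⁻¹ = T := by rw [mul_assoc, hA.mul_inv, mul_one]
  rw [← h1, h, Matrix.mul_smul, mul_one, Matrix.smul_mul, hA.mul_inv]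

/-- necessity -/
theorem only_if_sym (hI : CHI) (hH : CHH) (hP : CHP) (hN : CHN) (hFH : FLH) (hFP : FLP)
    (hFN : FLN) (hKPC : KPC) (hAX : AXI) (hD : DEG) (hTA' : TACT) (hG : GCON) (hDil : DIL)
    (hNE : NFE2) (hNB : NFB2) (hNN : NFN2) (hTOR : TOR) (hMAX : MAXM)
    (g : Cn 2 → ℂ) (hext : IsExtremePoint 2 g) (hsym : Sym g) :
    ∃ (G : Cn 2 → ℂ) (φ ψ : Cn 2 → Cn 2), ListFour G ∧ BallAut 2 φ ψ ∧
      ∀ z ∈ ball (0 : Cn 2) 1, g z = nrm G φ z := by
  obtain ⟨T, hT, hsc, hinv⟩ := hsym
  by_cases hneg : ∃ (v : Fin 3 → ℂ) (t : ℂ), T *ᵥ v = t • v ∧ (herm v v).re < 0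
  · -- elliptic
    obtain ⟨A, t, hA', hTA⟩ := hNE T hT hneg
    have hA : JU A := hA'
    have hfr := frame_sym hext hA
    have hinvA := fA_inv hG (μ := 0) hA hT (by rw [zero_smul, zero_add]; exact hTA) hinv
    have htor : ∀ z ∈ Bn 2, ∀ s : ℝ, fA g A ![Complex.exp (s * (t 1 - t 0 : ℝ) * Complex.I) * z 0,
        Complex.exp (s * (t 2 - t 0 : ℝ) * Complex.I) * z 1] = fA g A z := by
      intro z hz s
      rw [← hTA' t z s]
      exact hinvA z hz s
    by_cases hα : t 1 - t 0 = 0
    · by_cases hβ : t 2 - t 0 = 0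
      · exfalso
        apply hsc (t 0 : ℂ)
        apply scalar_of hA
        rw [hTA]
        congr 1
        rw [Matrix.smul_one_eq_diagonal]
        congr 1
        funext i
        have h1 : t 1 = t 0 := by linarith
        have h2 : t 2 = t 0 := by linarith
        fin_cases i
        · rfl
        · simp [h1]
        · simp [h2]
      · exfalso
        have h1 := (hAX (fA g A) (t 2 - t 0) hfr.diff hβ).1 (fun z hz s => by
          have := htor z hz s
          rw [hα] at this
          simpa using this)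
        exact no_one_var hD hext hA hfr 0 axis0_diff axis0_mem h1
    · by_cases hβ : t 2 - t 0 = 0
      · exfalso
        have h1 := (hAX (fA g A) (t 1 - t 0) hfr.diff hα).2 (fun z hz s => by
          have := htor z hz s
          rw [hβ] at this
          simpa using this)
        exact no_one_var hD hext hA hfr 1 axis1_diff axis1_mem h1
      · obtain ⟨a, b, ha, hb, hab, hall⟩ := hTOR (fA g A) (t 1 - t 0) (t 2 - t 0)
          hfr.diff hfr.lt hα hβ htor (by
            have := hfr.nc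
            push Not at this
            exact this)
        obtain ⟨c₀, hc₀⟩ := exists_sharp ha hb
        obtain ⟨h, hh, hh1, heq⟩ := hall c₀ hc₀
        obtain ⟨c, hc, ⟨φ, ψ, hB, hg⟩, -⟩ := frame_end hext hA hfr
          (F₀ := fun z => c₀ * z 0 ^ a * z 1 ^ b) (mono_diff a b c₀)
          (fun z hz' => hMAX a b c₀ ha hb hc₀ z hz') (by
            have : (0 : ℂ) ^ a = 0 := zero_pow (by omega)
            simp [this]) hh hh1 heq
        refine ⟨gmon a b (c * c₀), φ, ψ, Or.inl ⟨a, b, c * c₀, ha, hb, hab, ?_, rfl⟩, hB, ?_⟩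
        · unfold Sharp at hc₀ ⊢
          rw [norm_mul, hc, one_mul]
          exact hc₀
        · intro z hz'
          rw [hg z hz']
          have e1 : (fun z : Cn 2 => (1 + c * (c₀ * z 0 ^ a * z 1 ^ b)) /
              (1 - c * (c₀ * z 0 ^ a * z 1 ^ b))) = gmon a b (c * c₀) := by
            funext y
            simp only [gmon, mul_assoc]
          rw [← e1]
  · push Not at hneg
    by_cases hpos : ∃ (v : Fin 3 → ℂ) (t : ℂ), T *ᵥ v = t • v ∧ 0 < (herm v v).re
    · obtain ⟨A, μ, τ, b, hA', hb, hcase⟩ := hNB T hT hneg hpos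
      have hA : JU A := hA'
      have hfr := frame_sym hext hA
      rcases hcase with hTA | hTA
      · -- hyperbolic
        have hinvA := fA_inv hG hA hT hTA hinv
        obtain ⟨δ, hC⟩ := hH (τ / b)
        obtain ⟨c, hc, φ, ψ, hB, hg⟩ := end_chart hI hext hC hA hfr
          (fib_of_flow hC (T := hmat τ b) (r := 2 * b) (by simpa using hb)
            (fun w ζ hw hζ s => by
              rw [hFH τ b hb w ζ hw hζ s]
              congr 3
              ring) hinvA)
        exact ⟨_, φ, ψ, Or.inr (Or.inr (Or.inl ⟨τ / b, c, hc, rfl⟩)), hB, hg⟩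
      · -- parabolic
        have hinvA := fA_inv hG hA hT hTA hinv
        by_cases hs : 0 ≤ τ * b
        · exact absurd (hKPC (fA g A) τ b hb hs hfr.diff hfr.lt hinvA) hfr.nc
        · push Not at hs
          have hm : 0 < -τ / (2 * b) := by
            have hb2 : 0 < b ^ 2 := by positivity
            have : -τ / (2 * b) = -(τ * b) / (2 * b ^ 2) := by
              field_simp
            rw [this]
            exact div_pos (by linarith) (by linarith)
          obtain ⟨δ, hC⟩ := hP _ hm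
          have hfib := fib_of_flow hC (T := pmat τ b) (r := 2 * b) (by simpa using hb)
            (fun w ζ hw hζ s => by
              rw [hFP τ b hb hs w ζ hw hζ s]
              congr 3
              ring) hinvA
          obtain ⟨D, hD', hDm⟩ := hDil _ hm
          have hDJ : JU D := hD'
          have h1 := hI _ _ _ _ δ hC (fA g A) hfr.diff hfib
          -- the chart with `m = 1`
          obtain ⟨δ₁, hC₁⟩ := hP 1 one_pos
          rw [fPm_one] at hC₁
          have hAD : JU (A * D) := hA.mul hDJ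
          have hfr₁ := frame_sym hext hAD
          have hfD : ∀ z ∈ Bn 2, fA g (A * D) z = fA g A (act D z) := by
            intro z hz
            unfold fA
            rw [act_comp A D (hDJ.act_mem hz).1]
          have hy : ∀ w : ℂ, ‖w‖ < 1 →
              (((1 / (2 * (-τ / (2 * b))) : ℝ) : ℂ) * Complex.I).im ∈ iP (-τ / (2 * b)) w := by
            intro w hw
            rw [im_real_mul_I]
            refine hC.sub w hw _ ?_
            rw [sub_self, abs_zero]
            have h2 : 0 < 1 - ‖w‖ ^ 2 := by nlinarith [norm_nonneg w]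
            exact mul_pos hC.δpos (Real.sqrt_pos.2 h2)
          have hmem : ∀ w ∈ ball (0 : ℂ) 1,
              psP (-τ / (2 * b)) w (((1 / (2 * (-τ / (2 * b))) : ℝ) : ℂ) * Complex.I) ∈ Bn 2 :=
            fun w hw => hC.mem w _ (mem_ball_zero_iff.1 hw) (hy w (mem_ball_zero_iff.1 hw))
          obtain ⟨c, hc, ⟨φ, ψ, hB, hg⟩, -⟩ := frame_end hext hAD hfr₁ (F₀ := fP)
            (hC₁.dF.comp ofLp_diff.differentiableOn fun z hz => ball_iff.1 hz) hC₁.lt hC₁.zero
            (h := fun w => fA g A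
              (psP (-τ / (2 * b)) w (((1 / (2 * (-τ / (2 * b))) : ℝ) : ℂ) * Complex.I)))
            (hfr.diff.comp (hC.dw _ (im_real_mul_I _)) hmem)
            (fun w hw => hfr.lt _ (hmem w hw)) (by
              intro z hz
              rw [hfD z hz, h1 _ (hDJ.act_mem hz).2, hDm z hz])
          exact ⟨_, φ, ψ, Or.inr (Or.inr (Or.inr ⟨c, hc, rfl⟩)), hB, hg⟩
    · -- all eigenvectors are null
      push Not at hpos
      obtain ⟨A, μ, c₁, hA', hc₁, hTA⟩ := hNN T hT
        (fun v t hv => le_antisymm (hpos v t hv) (hneg v t hv))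
      have hA : JU A := hA'
      have hfr := frame_sym hext hA
      have hinvA := fA_inv hG hA hT hTA hinv
      obtain ⟨δ, hC⟩ := hN
      obtain ⟨c, hc, φ, ψ, hB, hg⟩ := end_chart hI hext hC hA hfr
        (fib_of_flow hC (T := nmat c₁) (r := c₁) hc₁
          (fun w ζ hw hζ s => by
            rw [hFN c₁ hc₁ w ζ hw hζ s, mul_comm]) hinvA)
      exact ⟨_, φ, ψ, Or.inr (Or.inl ⟨c, hc, rfl⟩), hB, hg⟩

/-- symmetry depends only on the ball -/
lemma sym_congr (hG : GCON) {g g' : Cn 2 → ℂ} (h : ∀ z ∈ ball (0 : Cn 2) 1, g z = g' z)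
    (hg : Sym g') : Sym g := by
  obtain ⟨T, hT, hsc, hinv⟩ := hg
  refine ⟨T, hT, hsc, fun z hz s => ?_⟩
  have h1 : JU (grp T (s * Complex.I)) :=
    (hG T T 1 0 (by simp) hT (by simp)).1 s
  have h2 : g (actC (grp T (s * Complex.I)) z) = g' (actC (grp T (s * Complex.I)) z) :=
    h _ ((proj _ h1).2.mφ z hz)
  rw [h2, h z hz]
  exact hinv z hz s

/-- the final theorem from the rows -/
theorem final_sym (hX : CHX) (hI : CHI) (hH : CHH) (hP : CHP) (hN : CHN) (hFH : FLH) (hFP : FLP)
    (hFN : FLN) (hKPC : KPC) (hAX : AXI) (hD : DEG) (hTA' : TACT) (hG : GCON) (hDil : DIL)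
    (hNE : NFE2) (hNB : NFB2) (hNN : NFN2) (hTOR : TOR) (hMAX : MAXM) (hMO : MONO)
    (hCa : CARTAN) : FINALSYM := by
  intro g
  constructor
  · rintro ⟨hext, hsym⟩
    exact only_if_sym hI hH hP hN hFH hFP hFN hKPC hAX hD hTA' hG hDil hNE hNB hNN hTOR hMAX g
      hext hsym
  · rintro ⟨G, φ, ψ, hL, hB, hg⟩
    have hGe : IsExtremePoint 2 G := by
      rcases hL with ⟨a, b, c, ha, hb, hab, hc, rfl⟩ | ⟨c, hc, rfl⟩ | ⟨θ, c, hc, rfl⟩ |
        ⟨c, hc, rfl⟩
      · exact hMO a b c ha hb hab hc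
      · obtain ⟨δ, hC⟩ := hN
        exact hX _ _ _ _ _ hC c hc
      · obtain ⟨δ, hC⟩ := hH θ
        exact hX _ _ _ _ _ hC c hc
      · obtain ⟨δ, hC⟩ := hP 1 one_pos
        rw [fPm_one] at hC
        exact hX _ _ _ _ _ hC c hc
    refine ⟨ext_congr hg (aut 2 G φ ψ hB hGe), ?_⟩
    obtain ⟨A, hA, hφ⟩ := hCa φ ψ hB
    have hS := syma hG G A hA (symg hH hP hN hFH hFP hFN hTA' G hL)
    refine sym_congr hG (fun z hz => ?_) hS
    rw [hg z hz]
    unfold nrm
    rw [hφ z hz, hφ 0 (mem_ball_self one_pos)]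

end

end Pool.Agent.Lib.MP_6ff8d9_an.N2
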