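import Pool.Agent.Lib.MP_6ff8d9_an_h8.SymRows
import Pool.Agent.Lib.MP_6ff8d9_an_h23.Asm3

/-!
# MP_6ff8d9, dimension 2: the symmetric extreme points, assembly, part one
-/

open Metric Filter Topology MvPolynomial Matrix
open scoped ComplexConjugate

namespace Pool.Agent.Lib.MP_6ff8d9_an.N2

open Pool.Agent.Lib.MP_6ff8d9_an Pool.Agent.Lib.MP_6ff8d9_an.H22

noncomputable section

/-- row SYMA -/
theorem syma (hG : GCON) : SYMA := by
  intro G A hA' ⟨T, hT, hsc, hinv⟩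
  have hA : JU A := hA'
  have hTA : T * A = A * ((0 : ℂ) • (1 : Matrix (Fin 3) (Fin 3) ℂ) + A⁻¹ * T * A) := by
    rw [zero_smul, zero_add, mul_assoc A⁻¹, ← mul_assoc A, hA.mul_inv, one_mul]
  have hg := (hG T (A⁻¹ * T * A) A 0 hA' hT hTA).2
  refine ⟨A⁻¹ * T * A, hA.dag_conj hT, ?_, ?_⟩
  · intro c hc
    apply hsc c
    have h1 : A * (A⁻¹ * T * A) * A⁻¹ = T := by
      rw [mul_assoc A⁻¹, ← mul_assoc A, hA.mul_inv, one_mul, mul_assoc, hA.mul_inv, mul_one]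
    rw [← h1, hc, Matrix.mul_smul, mul_one, Matrix.smul_mul, hA.mul_inv]
  · intro z hz s
    have h1 := hg _ (ball_iff.1 hz) s
    have h2 : actC A (actC (grp (A⁻¹ * T * A) (s * Complex.I)) z) =
        actC (grp T (s * Complex.I)) (actC A z) := by
      show WithLp.toLp 2 (act A (act (grp (A⁻¹ * T * A) (s * Complex.I)) fun i => z i)) = _
      rw [h1]
      rfl
    have h3 : G (actC (grp T (s * Complex.I)) (actC A z)) = G (actC A z) :=
      hinv _ ((proj A hA).2.mφ z hz) s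
    unfold nrm
    rw [h2, h3]

/-- symmetry from a chart -/
lemma sym_of_chart {F : (Fin 2 → ℂ) → ℂ} {Ps : ℂ → ℂ → Fin 2 → ℂ} {I : ℂ → Set ℝ} {y₀ δ : ℝ}
    (hC : FChart F Ps I y₀ δ) {T : Matrix (Fin 3) (Fin 3) ℂ} {r : ℝ}
    (hF : ∀ w ζ : ℂ, ‖w‖ < 1 → ζ.im ∈ I w → ∀ s : ℝ,
      act (grp T (s * Complex.I)) (Ps w ζ) = Ps w (ζ + ((-(r * s) : ℝ) : ℂ)))
    {z : Fin 2 → ℂ} (hz : z ∈ Bn 2) (s : ℝ) : F (act (grp T (s * Complex.I)) z) = F z := by
  obtain ⟨ζ, h1, h2⟩ := hC.surj z hz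
  have hw := hC.lt z hz
  set w := F z with hwd
  rw [← h2, hF w ζ hw h1 s, hC.val w _ hw (by simpa using h1)]

/-- invariance along the fibres -/
lemma fib_of_flow {F : (Fin 2 → ℂ) → ℂ} {Ps : ℂ → ℂ → Fin 2 → ℂ} {I : ℂ → Set ℝ} {y₀ δ : ℝ}
    (hC : FChart F Ps I y₀ δ) {T : Matrix (Fin 3) (Fin 3) ℂ} {r : ℝ} (hr : r ≠ 0)
    (hF : ∀ w ζ : ℂ, ‖w‖ < 1 → ζ.im ∈ I w → ∀ s : ℝ,
      act (grp T (s * Complex.I)) (Ps w ζ) = Ps w (ζ + ((-(r * s) : ℝ) : ℂ)))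
    {f : (Fin 2 → ℂ) → ℂ} (hf : ∀ z ∈ Bn 2, ∀ s : ℝ, f (act (grp T (s * Complex.I)) z) = f z) :
    ∀ w ζ : ℂ, ‖w‖ < 1 → ζ.im ∈ I w → ∀ x : ℝ, f (Ps w (ζ + x)) = f (Ps w ζ) := by
  intro w ζ hw hζ x
  have h1 := hF w ζ hw hζ (-(x / r))
  have h2 : -(r * -(x / r)) = x := by field_simp
  rw [h2] at h1
  rw [← h1]
  exact hf _ (hC.mem w ζ hw hζ) _

lemma not_scalar {T : Matrix (Fin 3) (Fin 3) ℂ} {i j : Fin 3}
    (h : T i j ≠ 0 ∧ i ≠ j ∨ T i i ≠ T j j) (c : ℂ) : T ≠ c • (1 : Matrix (Fin 3) (Fin 3) ℂ) := by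
  rintro rfl
  rcases h with ⟨h, hij⟩ | h
  · apply h
    simp [hij]
  · apply h
    simp

lemma dag_hmat (τ b : ℝ) : dag (hmat τ b) = hmat τ b := by
  ext i j
  fin_cases i <;> fin_cases j <;>
    simp [dag, J3, hmat, Matrix.mul_apply, Matrix.diagonal,
      Matrix.conjTranspose_apply]

lemma dag_pmat (τ b : ℝ) : dag (pmat τ b) = pmat τ b := by
  ext i j
  fin_cases i <;> fin_cases j <;>
    simp [dag, J3, pmat, Matrix.mul_apply, Matrix.diagonal,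
      Matrix.conjTranspose_apply]

lemma dag_nmat (c : ℝ) : dag (nmat c) = nmat c := by
  ext i j
  fin_cases i <;> fin_cases j <;>
    simp [dag, J3, nmat, Matrix.mul_apply, Matrix.diagonal,
      Matrix.conjTranspose_apply]

lemma fPm_one : fPm 1 = fP := by
  funext z
  simp [fPm, fP]

/-- row SYMG -/
theorem symg (hH : CHH) (hP : CHP) (hN : CHN) (hFH : FLH) (hFP : FLP) (hFN : FLN)
    (hT : TACT) : SYMG := by
  rintro G (⟨a, b, c, ha, hb, -, -, rfl⟩ | ⟨c, -, rfl⟩ | ⟨θ, c, -, rfl⟩ | ⟨c, -, rfl⟩)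
  · have hdg : dag (Matrix.diagonal (fun i => ((![0, (b : ℝ), -(a : ℝ)] i : ℝ) : ℂ))) =
        Matrix.diagonal (fun i => ((![0, (b : ℝ), -(a : ℝ)] i : ℝ) : ℂ)) := by
      ext i j
      fin_cases i <;> fin_cases j <;>
        simp [dag, J3, Matrix.mul_apply, Matrix.diagonal,
          Matrix.conjTranspose_apply]
    refine ⟨Matrix.diagonal (fun i => ((![0, (b : ℝ), -(a : ℝ)] i : ℝ) : ℂ)), hdg, ?_, ?_⟩
    · refine not_scalar (i := 0) (j := 1) (Or.inr ?_)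
      have hb' : (b : ℂ) ≠ 0 := by
        exact_mod_cast (by omega : b ≠ 0)
      simpa using hb'.symm
    · intro z hz s
      have h1 := hT ![0, (b : ℝ), -(a : ℝ)] (fun i => z i) s
      unfold actC
      rw [h1]
      have h2 : Complex.exp (s * ((![0, (b : ℝ), -(a : ℝ)] : Fin 3 → ℝ) 1 -
          (![0, (b : ℝ), -(a : ℝ)] : Fin 3 → ℝ) 0 : ℝ) * Complex.I) ^ a *
          Complex.exp (s * ((![0, (b : ℝ), -(a : ℝ)] : Fin 3 → ℝ) 2 -
          (![0, (b : ℝ), -(a : ℝ)] : Fin 3 → ℝ) 0 : ℝ) * Complex.I) ^ b = 1 := by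
        rw [← Complex.exp_nat_mul, ← Complex.exp_nat_mul, ← Complex.exp_add]
        simp only [Matrix.cons_val_one, Matrix.cons_val_zero, Matrix.cons_val]
        push_cast
        rw [← Complex.exp_zero]
        congr 1
        ring
      have h3 : ∀ x y X Y : ℂ, X ^ a * Y ^ b = 1 →
          c * (X * x) ^ a * (Y * y) ^ b = c * x ^ a * y ^ b := by
        intro x y X Y h
        rw [mul_pow, mul_pow]
        linear_combination (c * x ^ a * y ^ b) * h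
      show (1 + c * (_ * z 0) ^ a * (_ * z 1) ^ b) / (1 - c * (_ * z 0) ^ a * (_ * z 1) ^ b) =
        (1 + c * z 0 ^ a * z 1 ^ b) / (1 - c * z 0 ^ a * z 1 ^ b)
      rw [h3 _ _ _ _ h2]
  · obtain ⟨δ, hC⟩ := hN
    refine ⟨nmat 1, dag_nmat 1, not_scalar (i := 0) (j := 2) (Or.inl ?_), ?_⟩
    · simp [nmat]
    · intro z hz s
      have h1 := sym_of_chart hC (T := nmat 1) (r := 1) (fun w ζ hw hζ s => by
        rw [hFN 1 one_ne_zero w ζ hw hζ s, mul_one, one_mul]) (ball_iff.1 hz) s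
      unfold cay actC
      simp only [h1]
  · obtain ⟨δ, hC⟩ := hH θ
    refine ⟨hmat θ 1, dag_hmat θ 1, not_scalar (i := 0) (j := 1) (Or.inl ?_), ?_⟩
    · simp [hmat]
    · intro z hz s
      have h1 := sym_of_chart hC (T := hmat θ 1) (r := 2) (fun w ζ hw hζ s => by
        have h2 := hFH θ 1 one_ne_zero w ζ hw (by rwa [div_one]) s
        rwa [div_one, mul_one] at h2) (ball_iff.1 hz) s
      unfold cay actC
      simp only [h1]
  · obtain ⟨δ, hC⟩ := hP 1 one_pos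
    rw [fPm_one] at hC
    refine ⟨pmat (-2) 1, dag_pmat (-2) 1, not_scalar (i := 0) (j := 1) (Or.inl ?_), ?_⟩
    · simp [pmat]
    · intro z hz s
      have h1 := sym_of_chart hC (T := pmat (-2) 1) (r := 2) (fun w ζ hw hζ s => by
        have e1 : -(-2 : ℝ) / (2 * 1) = 1 := by norm_num
        have h2 := hFP (-2) 1 one_ne_zero (by norm_num) w ζ hw (by rwa [e1]) s
        rwa [e1, mul_one] at h2) (ball_iff.1 hz) s
      unfold cay actC
      simp only [h1]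

end

end Pool.Agent.Lib.MP_6ff8d9_an.N2
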