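import Pool.Agent.Lib.MP_6ff8d9_an_h8.SymA

/-!
# MP_6ff8d9, dimension 2: the symmetric extreme points, assembly, part two
-/

open Metric Filter Topology MvPolynomial Matrix
open scoped ComplexConjugate

namespace Pool.Agent.Lib.MP_6ff8d9_an.N2

open Pool.Agent.Lib.MP_6ff8d9_an Pool.Agent.Lib.MP_6ff8d9_an.H22

noncomputable section

/-- the function of the frame -/
def fA (g : Cn 2 → ℂ) (A : Matrix (Fin 3) (Fin 3) ℂ) (z : Fin 2 → ℂ) : ℂ :=
  (g (WithLp.toLp 2 (act A z)) - 1) / (g (WithLp.toLp 2 (act A z)) + 1)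

lemma toLp_ball {z : Fin 2 → ℂ} (hz : z ∈ Bn 2) : (WithLp.toLp 2 z : Cn 2) ∈ ball (0 : Cn 2) 1 :=
  ball_iff.2 hz

lemma toLp_diff : Differentiable ℂ (fun z : Fin 2 → ℂ => (WithLp.toLp 2 z : Cn 2)) :=
  (EuclideanSpace.equiv (Fin 2) ℂ).symm.differentiable

lemma ofLp_diff : Differentiable ℂ (fun z : Cn 2 => (fun i => z i : Fin 2 → ℂ)) :=
  (EuclideanSpace.equiv (Fin 2) ℂ).differentiable

lemma frame_sym {g : Cn 2 → ℂ} (hext : IsExtremePoint 2 g) {A : Matrix (Fin 3) (Fin 3) ℂ}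
    (hA : JU A) : Frame g A (fA g A) := by
  have hre : ∀ z ∈ Bn 2, 0 < (g (WithLp.toLp 2 (act A z))).re := fun z hz =>
    hext.1.2.1 _ (toLp_ball (hA.act_mem hz).2)
  have hne : ∀ z ∈ Bn 2, g (WithLp.toLp 2 (act A z)) + 1 ≠ 0 := by
    intro z hz h
    have h1 := congrArg Complex.re h
    have h2 := hre z hz
    simp at h1
    linarith
  refine ⟨?_, fun z hz => cay_inv_lt (hre z hz), ?_, ?_⟩
  · have h1 : DifferentiableOn ℂ (fun z : Fin 2 → ℂ => g (WithLp.toLp 2 (act A z))) (Bn 2) := by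
      have h2 : DifferentiableOn ℂ (fun z : Fin 2 → ℂ =>
          (WithLp.toLp 2 (act A (fun i => (WithLp.toLp 2 z : Cn 2) i)) : Cn 2)) (Bn 2) :=
        (act_diff hA).comp toLp_diff.differentiableOn fun z hz => toLp_ball hz
      exact hext.1.1.comp h2 fun z hz => toLp_ball (hA.act_mem hz).2
    intro z hz
    have h3 : DifferentiableWithinAt ℂ (fun z : Fin 2 → ℂ =>
        (g (WithLp.toLp 2 (act A z)) + 1)⁻¹) (Bn 2) z :=
      (hasFDerivAt_inv (hne z hz)).differentiableAt.comp_differentiableWithinAt z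
        ((h1 z hz).add_const 1)
    have h4 := ((h1 z hz).sub_const 1).fun_mul h3
    exact h4.congr (fun y _ => by simp [fA, div_eq_mul_inv]) (by simp [fA, div_eq_mul_inv])
  · intro z hz
    have h1 := hne _ (ball_iff.1 hz)
    unfold fA
    set X := g (WithLp.toLp 2 (act A fun i => z i)) with hX
    have e1 : 1 + (X - 1) / (X + 1) = 2 * X / (X + 1) := by
      field_simp
      ring
    have e2 : 1 - (X - 1) / (X + 1) = 2 / (X + 1) := by
      field_simp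
      ring
    rw [e1, e2]
    field_simp
  · intro hcon
    refine H23.one_not_extreme (n := 2) (by norm_num) g ?_ hext
    have hinj : ∀ X Y : ℂ, X + 1 ≠ 0 → Y + 1 ≠ 0 → (X - 1) / (X + 1) = (Y - 1) / (Y + 1) →
        X = Y := by
      intro X Y hX hY h
      rw [div_eq_div_iff hX hY] at h
      linear_combination h / 2
    have h0 : (0 : Fin 2 → ℂ) ∈ Bn 2 := by
      rw [mem_Bn2]; simp
    have key : ∀ z ∈ ball (0 : Cn 2) 1, g z = g (WithLp.toLp 2 (act A 0)) := by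
      intro z hz
      have h1 := (proj A hA).1 _ (ball_iff.1 hz)
      have h2 := hcon _ h1.2.2.2.2.1
      unfold fA at h2
      rw [h1.2.2.2.1] at h2
      have h3 : g (WithLp.toLp 2 (fun i => z i)) + 1 ≠ 0 := by
        have := hne _ h1.2.2.2.2.1
        rwa [h1.2.2.2.1] at this
      exact hinj _ _ h3 (hne 0 h0) h2
    intro z hz
    rw [key z hz, ← key 0 (mem_ball_self one_pos), hext.1.2.2]

/-- invariance of the function of the frame -/
lemma fA_inv (hG : GCON) {g : Cn 2 → ℂ} {T S A : Matrix (Fin 3) (Fin 3) ℂ} {μ : ℂ} (hA : JU A)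
    (hT : dag T = T) (hTA : T * A = A * (μ • (1 : Matrix (Fin 3) (Fin 3) ℂ) + S))
    (hinv : ∀ z ∈ ball (0 : Cn 2) 1, ∀ s : ℝ, g (actC (grp T (s * Complex.I)) z) = g z) :
    ∀ z ∈ Bn 2, ∀ s : ℝ, fA g A (act (grp S (s * Complex.I)) z) = fA g A z := by
  intro z hz s
  have h1 := (hG T S A μ hA hT hTA).2 z hz s
  have h2 := hinv _ (toLp_ball (hA.act_mem hz).2) s
  unfold actC at h2
  unfold fA
  rw [h1, h2]

/-- the end with a chart -/
lemma end_chart (hI : CHI) {g : Cn 2 → ℂ} (hext : IsExtremePoint 2 g)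
    {F : (Fin 2 → ℂ) → ℂ} {Ps : ℂ → ℂ → Fin 2 → ℂ} {I : ℂ → Set ℝ} {y₀ δ : ℝ}
    (hC : FChart F Ps I y₀ δ) {A : Matrix (Fin 3) (Fin 3) ℂ} (hA : JU A) {f : (Fin 2 → ℂ) → ℂ}
    (hfr : Frame g A f)
    (hf : ∀ w ζ : ℂ, ‖w‖ < 1 → ζ.im ∈ I w → ∀ x : ℝ, f (Ps w (ζ + x)) = f (Ps w ζ)) :
    ∃ c : ℂ, ‖c‖ = 1 ∧ ∃ φ ψ : Cn 2 → Cn 2, BallAut 2 φ ψ ∧
      ∀ z ∈ ball (0 : Cn 2) 1, g z = nrm (cay F c) φ z := by
  have h1 := hI F Ps I y₀ δ hC f hfr.diff hf
  have hy : ∀ w : ℂ, ‖w‖ < 1 → ((y₀ : ℂ) * Complex.I).im ∈ I w := by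
    intro w hw
    have : ((y₀ : ℂ) * Complex.I).im = y₀ := by simp
    rw [this]
    refine hC.sub w hw y₀ ?_
    rw [sub_self, abs_zero]
    have h2 : 0 < 1 - ‖w‖ ^ 2 := by nlinarith [norm_nonneg w]
    exact mul_pos hC.δpos (Real.sqrt_pos.2 h2)
  have hmem : ∀ w ∈ ball (0 : ℂ) 1, Ps w (y₀ * Complex.I) ∈ Bn 2 := fun w hw =>
    hC.mem w _ (mem_ball_zero_iff.1 hw) (hy w (mem_ball_zero_iff.1 hw))
  obtain ⟨c, hc, ⟨φ, ψ, hB, hg⟩, -⟩ := frame_end hext hA hfr (F₀ := F)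
    (hC.dF.comp ofLp_diff.differentiableOn fun z hz => ball_iff.1 hz) hC.lt hC.zero
    (h := fun w => f (Ps w (y₀ * Complex.I)))
    (hfr.diff.comp (hC.dw _ (by simp)) hmem) (fun w hw => hfr.lt _ (hmem w hw)) h1
  exact ⟨c, hc, φ, ψ, hB, hg⟩

/-- functions of one variable do not occur -/
lemma no_one_var (hD : DEG) {g : Cn 2 → ℂ} (hext : IsExtremePoint 2 g)
    {A : Matrix (Fin 3) (Fin 3) ℂ} (hA : JU A) {f : (Fin 2 → ℂ) → ℂ} (hfr : Frame g A f)
    (i : Fin 2) {l : ℂ → Fin 2 → ℂ} (hl : Differentiable ℂ l)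
    (hm : ∀ w ∈ ball (0 : ℂ) 1, l w ∈ Bn 2) (heq : ∀ z ∈ Bn 2, f z = f (l (z i))) : False := by
  have hB := (proj A hA).2
  have hi : ∀ z ∈ ball (0 : Cn 2) 1, ‖z i‖ < 1 := by
    intro z hz
    rw [mem_ball_zero_iff] at hz
    exact (EuclideanSpace.norm_eq z ▸ (by
      rw [← EuclideanSpace.norm_eq]
      exact PiLp.norm_apply_le z i : ‖z i‖ ≤ √(∑ j, ‖z j‖ ^ 2))).trans_lt hz
  obtain ⟨c, hc, h1, -⟩ := cmpl hext hB (F₀ := fun z => z i) (coord_diff i).differentiableOn hi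
    (by simp) (h := fun w => f (l w)) (hfr.diff.comp hl.differentiableOn hm)
    (fun w hw => hfr.lt _ (hm w hw)) (by
      intro z hz
      rw [hfr.eq z hz, heq _ (ball_iff.1 hz)])
  exact hD i c hc (ext_congr (fun z hz => (h1 z hz).symm) (aut 2 g _ _ hB hext))

end

end Pool.Agent.Lib.MP_6ff8d9_an.N2
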