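import Pool.Agent.Lib.MP_6ff8d9_an_h8.SymD

/-!
# MP_6ff8d9, dimension 2: rows FNL and CAN1
-/

open Metric Filter Topology MvPolynomial Matrix
open scoped ComplexConjugate

namespace Pool.Agent.Lib.MP_6ff8d9_an.N2

open Pool.Agent.Lib.MP_6ff8d9_an Pool.Agent.Lib.MP_6ff8d9_an.H22

noncomputable section

lemma cS_sharp {a b : ℕ} (ha : 1 ≤ a) (hb : 1 ≤ b) : Sharp a b (cS a b) := by
  have ha' : (0 : ℝ) < a := by exact_mod_cast ha
  have hb' : (0 : ℝ) < b := by exact_mod_cast hb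
  have hM0 : 0 ≤ ((a : ℝ) + b) ^ (a + b) / ((a : ℝ) ^ a * (b : ℝ) ^ b) := by positivity
  unfold Sharp cS
  rw [Complex.norm_real, Real.norm_of_nonneg (Real.sqrt_nonneg _), Real.sq_sqrt hM0]
  have : (a : ℝ) ^ a * (b : ℝ) ^ b ≠ 0 := by positivity
  field_simp

/-- row FNL -/
theorem fnl : FNL := by
  intro i hi
  cases i with
  | mono a b =>
    obtain ⟨ha, hab, hco⟩ := hi
    have hb : 1 ≤ b := ha.trans hab
    have h1 : ListTwo (gmon a b (cS a b)) := Or.inl ⟨a, b, _, ha, hb, hco, cS_sharp ha hb, rfl⟩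
    exact ⟨⟨_, Or.inl ⟨a, b, _, ha, hb, hco, cS_sharp ha hb, rfl⟩, fun z _ => rfl⟩,
      fun _ => ⟨_, h1, fun z _ => rfl⟩⟩
  | quad =>
    exact ⟨⟨cay fX 1, Or.inr (Or.inl ⟨1, by simp, rfl⟩), fun z hz => (fX_cay_one hz).1⟩,
      fun _ => ⟨gX 1, Or.inr ⟨1, by simp, rfl⟩, fun z hz => (fX_cay_one hz).1⟩⟩
  | quadInv =>
    exact ⟨⟨cay fX (-1), Or.inr (Or.inl ⟨-1, by simp, rfl⟩), fun z hz => (fX_cay_one hz).2⟩,
      fun _ => ⟨gX (-1), Or.inr ⟨-1, by simp, rfl⟩, fun z hz => (fX_cay_one hz).2⟩⟩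
  | hyp θ =>
    exact ⟨⟨_, Or.inr (Or.inr (Or.inl ⟨θ, 1, by simp, rfl⟩)), fun z _ => rfl⟩,
      fun h => h.elim⟩
  | par =>
    exact ⟨⟨_, Or.inr (Or.inr (Or.inr ⟨1, by simp, rfl⟩)), fun z _ => rfl⟩,
      fun h => h.elim⟩

/-- equivalence by a matrix which fixes the origin -/
lemma equi_of_act {g G : Cn 2 → ℂ} {A : Matrix (Fin 3) (Fin 3) ℂ} (hA : JU A)
    (h0 : act A 0 = 0) (hG : G 0 = 1)
    (h : ∀ z ∈ ball (0 : Cn 2) 1, g z = G (actC A z)) : Equi g G := by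
  refine ⟨_, _, (proj A hA).2, fun z hz => ?_⟩
  have h1 : actC A 0 = 0 := by
    have : (fun i => (0 : Cn 2) i) = (0 : Fin 2 → ℂ) := by funext i; simp
    unfold actC
    rw [this, h0]
    rfl
  show g z = (G (actC A z) - Complex.I * (G (actC A 0)).im) / (G (actC A 0)).re
  rw [h1, hG, h z hz]
  simp

lemma gmon_zero {a b : ℕ} (ha : 1 ≤ a) (c : ℂ) : gmon a b c 0 = 1 := by
  have : (0 : ℂ) ^ a = 0 := zero_pow (by omega)
  simp [gmon, this]

/-- row CAN1 -/
theorem can1 : CAN1 := by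
  intro a b c ha hb hab hc
  have hcS := cS_sharp ha hb
  have hpos : (a : ℝ) ^ a * (b : ℝ) ^ b ≠ 0 := by
    have ha' : (0 : ℝ) < a := by exact_mod_cast ha
    have hb' : (0 : ℝ) < b := by exact_mod_cast hb
    positivity
  have hnorm : ‖c‖ = ‖(cS a b : ℂ)‖ := by
    unfold Sharp at hc hcS
    have h1 : ‖c‖ ^ 2 = ‖(cS a b : ℂ)‖ ^ 2 := mul_right_cancel₀ hpos (hc.trans hcS.symm)
    exact (sq_eq_sq₀ (norm_nonneg _) (norm_nonneg _)).1 h1
  have hcS0 : (cS a b : ℂ) ≠ 0 := by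
    intro h
    unfold Sharp at hcS
    rw [h, norm_zero] at hcS
    have h2 : (0 : ℝ) < ((a : ℝ) + b) ^ (a + b) := by
      have ha' : (0 : ℝ) < a := by exact_mod_cast ha
      positivity
    rw [← hcS] at h2
    simp at h2
  obtain ⟨ω, hω⟩ := IsAlgClosed.exists_pow_nat_eq (c / (cS a b : ℂ)) (n := a) (by omega)
  have hωn : ‖ω‖ = 1 := by
    have h1 : ‖ω‖ ^ a = 1 := by
      rw [← norm_pow, hω, norm_div, hnorm, div_self]
      rw [← hnorm, hnorm]
      exact norm_ne_zero_iff.2 hcS0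
    exact (pow_eq_one_iff_of_nonneg (norm_nonneg _) (by omega)).1 h1
  have hωω : conj ω * ω = 1 := by
    rw [mul_comm, Complex.mul_conj, Complex.normSq_eq_norm_sq, hωn]
    simp
  have hcω : (cS a b : ℂ) * ω ^ a = c := by
    rw [hω]
    field_simp
  rcases le_total a b with hle | hle
  · refine ⟨a, b, ⟨ha, hle, hab⟩, ?_⟩
    have hA : JU (Matrix.diagonal ![1, ω, 1]) := by
      unfold JU
      ext i j
      fin_cases i <;> fin_cases j <;>
        simp [J3, Matrix.mul_apply, Matrix.diagonal, Matrix.conjTranspose_apply, hωω]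
    have hact : ∀ z : Fin 2 → ℂ, act (Matrix.diagonal ![1, ω, 1]) z = ![ω * z 0, z 1] := by
      intro z
      funext i
      fin_cases i <;> simp [act, pr, hz, Matrix.mulVec_diagonal]
    refine equi_of_act hA ?_ (gmon_zero ha _) fun z hz => ?_
    · rw [hact]
      funext i
      fin_cases i <;> simp
    · show gmon a b c z = gmon a b (cS a b) (actC _ z)
      unfold actC
      rw [hact]
      have e : ∀ x y : ℂ, (cS a b : ℂ) * (ω * x) ^ a * y ^ b = c * x ^ a * y ^ b := by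
        intro x y
        rw [mul_pow, ← hcω]
        ring
      show _ = (1 + (cS a b : ℂ) * (ω * z 0) ^ a * z 1 ^ b) /
        (1 - (cS a b : ℂ) * (ω * z 0) ^ a * z 1 ^ b)
      rw [e]
      rfl
  · refine ⟨b, a, ⟨hb, hle, hab.symm⟩, ?_⟩
    have hA : JU !![1, 0, 0; 0, 0, 1; 0, ω, 0] := by
      unfold JU
      ext i j
      fin_cases i <;> fin_cases j <;>
        simp [J3, Matrix.mul_apply, Fin.sum_univ_three, Matrix.diagonal,
          Matrix.conjTranspose_apply, hωω]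
    have hact : ∀ z : Fin 2 → ℂ, act !![1, 0, 0; 0, 0, 1; 0, ω, 0] z = ![z 1, ω * z 0] := by
      intro z
      funext i
      fin_cases i <;> simp [act, pr, hz, Matrix.mulVec, dotProduct, Fin.sum_univ_three]
    have hswap : cS b a = cS a b := by
      unfold cS
      rw [add_comm (b : ℝ), add_comm b, mul_comm ((b : ℝ) ^ b)]
    refine equi_of_act hA ?_ (gmon_zero hb _) fun z hz => ?_
    · rw [hact]
      funext i
      fin_cases i <;> simp
    · show gmon a b c z = gmon b a (cS b a) (actC _ z)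
      unfold actC
      rw [hact, hswap]
      have e : ∀ x y : ℂ, (cS a b : ℂ) * y ^ b * (ω * x) ^ a = c * x ^ a * y ^ b := by
        intro x y
        rw [mul_pow, ← hcω]
        ring
      show _ = (1 + (cS a b : ℂ) * z 1 ^ b * (ω * z 0) ^ a) /
        (1 - (cS a b : ℂ) * z 1 ^ b * (ω * z 0) ^ a)
      rw [e]
      rfl

end

end Pool.Agent.Lib.MP_6ff8d9_an.N2
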