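import Pool.Agent.Lib.MP_6ff8d9_an_h8.SymRows

/-!
# MP_6ff8d9, dimension 2: the classification up to equivalence, without repetitions

Definitions and rows, second part.
-/

open Metric Filter Topology MvPolynomial Matrix
open scoped ComplexConjugate

namespace Pool.Agent.Lib.MP_6ff8d9_an.N2

open Pool.Agent.Lib.MP_6ff8d9_an Pool.Agent.Lib.MP_6ff8d9_an.H22

noncomputable section

/-- `g` is equivalent to `G`: composition with an automorphism of the ball and normalisation -/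
def Equi (g G : Cn 2 → ℂ) : Prop :=
  ∃ φ ψ : Cn 2 → Cn 2, BallAut 2 φ ψ ∧ ∀ z ∈ ball (0 : Cn 2) 1, g z = nrm G φ z

/-- rational functions -/
def Rat (g : Cn 2 → ℂ) : Prop :=
  ∃ p q : MvPolynomial (Fin 2) ℂ, ∀ z ∈ ball (0 : Cn 2) 1,
    g z = eval (fun i => z i) p / eval (fun i => z i) q

/-- the sharp constant `√((a+b)^{a+b}/(a^a b^b))` -/
def cS (a b : ℕ) : ℝ := √(((a : ℝ) + b) ^ (a + b) / ((a : ℝ) ^ a * (b : ℝ) ^ b))

/-- the index set of the list -/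
inductive Idx
  | mono (a b : ℕ)
  | quad
  | quadInv
  | hyp (θ : ℝ)
  | par

/-- admissible indices -/
def Idx.Adm : Idx → Prop
  | .mono a b => 1 ≤ a ∧ a ≤ b ∧ a.Coprime b
  | .hyp θ => 0 ≤ θ
  | _ => True

/-- the rational members -/
def Idx.Alg : Idx → Prop
  | .hyp _ => False
  | .par => False
  | _ => True

/-- the functions of the list -/
def Idx.fn : Idx → Cn 2 → ℂ
  | .mono a b => gmon a b (cS a b)
  | .quad => fun z => (1 + z 0) / (1 - z 0) - (z 1 / (1 - z 0)) ^ 2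
  | .quadInv => fun z => ((1 + z 0) / (1 - z 0) - (z 1 / (1 - z 0)) ^ 2)⁻¹
  | .hyp θ => cay (fH θ) 1
  | .par => cay fP 1

/-- the generator of the symmetries -/
def Idx.T : Idx → Matrix (Fin 3) (Fin 3) ℂ
  | .mono a b => Matrix.diagonal ![(0 : ℂ), b, -a]
  | .quad => nmat 1
  | .quadInv => nmat 1
  | .hyp θ => hmat θ 1
  | .par => pmat (-2) 1

/-! ## Rows -/

/-- T1: reduction of family one (rotation of `z₀`, exchange of the coordinates if `b < a`) -/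
def CAN1 : Prop := ∀ (a b : ℕ) (c : ℂ), 1 ≤ a → 1 ≤ b → a.Coprime b → Sharp a b c →
  ∃ a' b' : ℕ, (Idx.mono a' b').Adm ∧ Equi (gmon a b c) (Idx.mono a' b').fn

/-- T2: reduction of family two.  `c = 1`: `cay fX 1 = X` on the ball.  `c ≠ 1`: with
`(1+c)/(1-c) = ir`, `cay fX c = ir + (1+r²)/(X+ir)` and `X + ir = X ∘ φ`, `φ : u ↦ u + ir` -/
def CAN2 : Prop := ∀ c : ℂ, ‖c‖ = 1 →
  Equi (cay fX c) Idx.quad.fn ∨ Equi (cay fX c) Idx.quadInv.fn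

/-- T3: reduction of family three (`z₁ ↦ c z₁`, and `z₀ ↦ -z₀` changes `θ` to `-θ`) -/
def CAN3 : Prop := ∀ (θ : ℝ) (c : ℂ), ‖c‖ = 1 → Equi (cay (fH θ) c) (Idx.hyp |θ|).fn

/-- T4: reduction of family four -/
def CAN4 : Prop := ∀ c : ℂ, ‖c‖ = 1 → Equi (cay fP c) Idx.par.fn

/-- T5: the members of the list are in the old lists (on the ball) -/
def FNL : Prop := ∀ i : Idx, i.Adm →
  (∃ G : Cn 2 → ℂ, ListFour G ∧ ∀ z ∈ ball (0 : Cn 2) 1, i.fn z = G z) ∧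
  (i.Alg → ∃ G : Cn 2 → ℂ, ListTwo G ∧ ∀ z ∈ ball (0 : Cn 2) 1, i.fn z = G z)

/-- T6: `Equi` is transitive and symmetric on `N(𝔹)` -/
def EQT : Prop := (∀ g G H : Cn 2 → ℂ, H ∈ NB 2 → Equi g G → Equi G H → Equi g H) ∧
  ∀ g G : Cn 2 → ℂ, G ∈ NB 2 → Equi g G → Equi G g

/-- T7: the first three members are rational, also after equivalence (CARTAN) -/
def RATL : Prop := ∀ (g : Cn 2 → ℂ) (i : Idx), i.Adm → i.Alg → Equi g i.fn → Rat g

/-- T8: the symmetry generator is unique up to affine changes.  Proof: `V_T ∧ V_S = 0` where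
`dg ≠ 0`, so `det (Z, SZ, TZ) = 0` for all `Z`; then row LINL -/
def STB : Prop := ∀ (g : Cn 2 → ℂ) (T S : Matrix (Fin 3) (Fin 3) ℂ), g ∈ NB 2 →
  (∃ z ∈ ball (0 : Cn 2) 1, g z ≠ g 0) → dag T = T → dag S = S → Cyc S →
  (∀ z ∈ ball (0 : Cn 2) 1, ∀ s : ℝ, g (actC (grp T (s * Complex.I)) z) = g z) →
  (∀ z ∈ ball (0 : Cn 2) 1, ∀ s : ℝ, g (actC (grp S (s * Complex.I)) z) = g z) →
  ∃ lam mu : ℝ, T = (lam : ℂ) • S + (mu : ℂ) • (1 : Matrix (Fin 3) (Fin 3) ℂ)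

/-- T9: linear algebra: conjugate generators have the same index, up to `quad/quadInv` -/
def SPEC : Prop := ∀ i j : Idx, i.Adm → j.Adm → ∀ (A : Matrix (Fin 3) (Fin 3) ℂ) (lam mu : ℝ),
  Aᴴ * J3 * A = J3 →
  j.T * A = A * ((lam : ℂ) • i.T + (mu : ℂ) • (1 : Matrix (Fin 3) (Fin 3) ℂ)) →
  i = j ∨ (i = .quad ∨ i = .quadInv) ∧ (j = .quad ∨ j = .quadInv)

/-- T10: `X` and `1/X` are not equivalent.  Proof: with `ℓ = Z₀-Z₁`, `m = Z₀+Z₁`, `q = Z₂` the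
hypothesis forces `ℓ∘A = aℓ`, `q∘A = λ⁻¹aq + bℓ`, `m∘A = λ⁻²am + 2λ⁻¹bq + cℓ`, so
`X ∘ A = λ⁻²X + κ`, and `X = α/(ρX+κ) + iβ` is impossible -/
def QXI : Prop := ∀ (A : Matrix (Fin 3) (Fin 3) ℂ) (lam mu : ℝ), Aᴴ * J3 * A = J3 →
  nmat 1 * A = A * ((lam : ℂ) • nmat 1 + (mu : ℂ) • (1 : Matrix (Fin 3) (Fin 3) ℂ)) →
  ¬ (∀ z ∈ ball (0 : Cn 2) 1, Idx.quad.fn z = nrm Idx.quadInv.fn (actC A) z) ∧
  ¬ (∀ z ∈ ball (0 : Cn 2) 1, Idx.quadInv.fn z = nrm Idx.quad.fn (actC A) z)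

/-- T11: the generators of the list: selfadjoint, cyclic, and the functions are invariant -/
def GEN : Prop := ∀ i : Idx, i.Adm → dag i.T = i.T ∧ Cyc i.T ∧
  ∀ z ∈ ball (0 : Cn 2) 1, ∀ s : ℝ, i.fn (actC (grp i.T (s * Complex.I)) z) = i.fn z

/-- the final theorem, canonical form -/
def FINALCAN : Prop := ∀ g : Cn 2 → ℂ,
  ((IsExtremePoint 2 g ∧ (Sym g ∨ Rat g)) ↔ ∃! i : Idx, i.Adm ∧ Equi g i.fn) ∧
  ((IsExtremePoint 2 g ∧ Rat g) ↔ ∃! i : Idx, (i.Adm ∧ i.Alg) ∧ Equi g i.fn)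

end

end Pool.Agent.Lib.MP_6ff8d9_an.N2
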