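import Pool.Agent.Lib.MP_6ff8d9_an_h8.SymC
import Pool.Agent.Lib.MP_6ff8d9_an_h8.SymRows2
import Pool.Agent.Lib.MP_6ff8d9_an_h50.SymChx
import Pool.Agent.Lib.MP_6ff8d9_an_h50.SymChp
import Pool.Agent.Lib.MP_6ff8d9_an_h50.SymChh
import Pool.Agent.Lib.MP_6ff8d9_an_h1.SymChi
import Pool.Agent.Lib.MP_6ff8d9_an_h1.Tor
import Pool.Agent.Lib.MP_6ff8d9_an_h22.SymChn
import Pool.Agent.Lib.MP_6ff8d9_an_h82.SymFlh
import Pool.Agent.Lib.MP_6ff8d9_an_h69.SymFl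
import Pool.Agent.Lib.MP_6ff8d9_an_h21r.SymKpc
import Pool.Agent.Lib.MP_6ff8d9_an_h16.SymNf
import Pool.Agent.Lib.MP_6ff8d9_an_h11.Nfn2
import Pool.Agent.Lib.MP_6ff8d9_an_h23.SymTact
import Pool.Agent.Lib.MP_6ff8d9_an_h46.SymCartan
import Pool.Agent.Lib.MP_6ff8d9_an_h50.Mono

/-!
# MP_6ff8d9, dimension 2: all extreme points with a continuous symmetry; the generators
-/

open Metric Filter Topology MvPolynomial Matrix
open scoped ComplexConjugate

namespace Pool.Agent.Lib.MP_6ff8d9_an.N2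

open Pool.Agent.Lib.MP_6ff8d9_an Pool.Agent.Lib.MP_6ff8d9_an.H22

noncomputable section

/-- all extreme points of `N(𝔹₂)` with a continuous symmetry -/
theorem finalsym8 : FINALSYM :=
  final_sym chx chi chh chp chn H82L.flh flp fln kpc axi deg tact gcon dil nfe2 nfb2 nfn2 tor
    H50M.maxm H50M.mono cartan

lemma symg' : SYMG := symg chh chp chn H82L.flh flp fln tact

/-- the function of a chart is invariant under the flow, with the generator -/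
lemma inv_of_chart {F : (Fin 2 → ℂ) → ℂ} {Ps : ℂ → ℂ → Fin 2 → ℂ} {I : ℂ → Set ℝ} {y₀ δ : ℝ}
    (hC : FChart F Ps I y₀ δ) {T : Matrix (Fin 3) (Fin 3) ℂ} {r : ℝ}
    (hF : ∀ w ζ : ℂ, ‖w‖ < 1 → ζ.im ∈ I w → ∀ s : ℝ,
      act (grp T (s * Complex.I)) (Ps w ζ) = Ps w (ζ + ((-(r * s) : ℝ) : ℂ))) (c : ℂ)
    {z : Cn 2} (hz : z ∈ ball (0 : Cn 2) 1) (s : ℝ) :
    cay F c (actC (grp T (s * Complex.I)) z) = cay F c z := by
  have h1 := sym_of_chart hC hF (ball_iff.1 hz) s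
  unfold cay actC
  simp only [h1]

/-- invariance depends only on the ball -/
lemma inv_congr {g g' : Cn 2 → ℂ} {T : Matrix (Fin 3) (Fin 3) ℂ} (hT : dag T = T)
    (h : ∀ z ∈ ball (0 : Cn 2) 1, g z = g' z)
    (hg : ∀ z ∈ ball (0 : Cn 2) 1, ∀ s : ℝ, g' (actC (grp T (s * Complex.I)) z) = g' z) :
    ∀ z ∈ ball (0 : Cn 2) 1, ∀ s : ℝ, g (actC (grp T (s * Complex.I)) z) = g z := by
  intro z hz s
  have h1 : JU (grp T (s * Complex.I)) :=
    (gcon T T 1 0 (by simp) hT (by simp)).1 s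
  have h2 : g (actC (grp T (s * Complex.I)) z) = g' (actC (grp T (s * Complex.I)) z) :=
    h _ ((proj _ h1).2.mφ z hz)
  rw [h2, h z hz]
  exact hg z hz s

lemma fX_cay_one {z : Cn 2} (hz : z ∈ ball (0 : Cn 2) 1) :
    Idx.quad.fn z = cay fX 1 z ∧ Idx.quadInv.fn z = cay fX (-1) z := by
  have h0 : 1 - z 0 ≠ 0 := by
    have h1 := ball_iff.1 hz
    rw [mem_Bn2] at h1
    exact one_sub_ne' (by nlinarith [sq_nonneg ‖z 1‖, norm_nonneg (z 0)])
  have h2 := H50X.den_ne hz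
  have e1 : 1 + fX (fun i => z i) = 2 * ((1 - z 0) * (1 + z 0) - z 1 ^ 2) /
      (2 * (1 - z 0) - z 1 ^ 2) := by
    unfold fX
    field_simp
    ring
  have e2 : 1 - fX (fun i => z i) = 2 * (1 - z 0) ^ 2 / (2 * (1 - z 0) - z 1 ^ 2) := by
    unfold fX
    field_simp
    ring
  have e3 : (1 + z 0) / (1 - z 0) - (z 1 / (1 - z 0)) ^ 2 =
      (1 + fX (fun i => z i)) / (1 - fX (fun i => z i)) := by
    rw [e1, e2, div_div_div_cancel_right₀ h2]
    field_simp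
  constructor
  · show (1 + z 0) / (1 - z 0) - (z 1 / (1 - z 0)) ^ 2 = _
    rw [e3]
    simp [cay]
  · show ((1 + z 0) / (1 - z 0) - (z 1 / (1 - z 0)) ^ 2)⁻¹ = _
    rw [e3, inv_div]
    simp [cay, sub_eq_add_neg]

/-- row GEN -/
theorem gen : GEN := by
  intro i hi
  cases i with
  | mono a b =>
    obtain ⟨ha, hab, hco⟩ := hi
    have hb : 1 ≤ b := ha.trans hab
    have ha' : (a : ℂ) ≠ 0 := by exact_mod_cast (by omega : a ≠ 0)
    have hb' : (b : ℂ) ≠ 0 := by exact_mod_cast (by omega : b ≠ 0)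
    have hs : (a : ℂ) + b ≠ 0 := by exact_mod_cast (by omega : a + b ≠ 0)
    have hdg : dag (Idx.mono a b).T = (Idx.mono a b).T := by
      ext i j
      fin_cases i <;> fin_cases j <;>
        simp [Idx.T, dag, J3, Matrix.mul_apply, Matrix.diagonal, Matrix.conjTranspose_apply]
    refine ⟨hdg, ⟨![1, 1, 1], ?_⟩, ?_⟩
    · have e : (Matrix.of ![![1, 1, 1], (Idx.mono a b).T *ᵥ ![1, 1, 1],
          (Idx.mono a b).T *ᵥ ((Idx.mono a b).T *ᵥ ![1, 1, 1])]).det = (a : ℂ) * b * (a + b) := by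
        rw [Matrix.det_fin_three]
        simp [Idx.T, Matrix.mulVec_diagonal]
        ring
      rw [e]
      exact mul_ne_zero (mul_ne_zero ha' hb') hs
    · intro z hz s
      have hT' : (Idx.mono a b).T =
          Matrix.diagonal (fun i => ((![0, (b : ℝ), -(a : ℝ)] i : ℝ) : ℂ)) := by
        show Matrix.diagonal _ = _
        congr 1
        funext i
        fin_cases i <;> simp
      have h1 := tact ![0, (b : ℝ), -(a : ℝ)] (fun i => z i) s
      rw [hT']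
      unfold actC
      rw [h1]
      have h2 : Complex.exp (s * ((![0, (b : ℝ), -(a : ℝ)] : Fin 3 → ℝ) 1 -
          (![0, (b : ℝ), -(a : ℝ)] : Fin 3 → ℝ) 0 : ℝ) * Complex.I) ^ a *
          Complex.exp (s * ((![0, (b : ℝ), -(a : ℝ)] : Fin 3 → ℝ) 2 -
          (![0, (b : ℝ), -(a : ℝ)] : Fin 3 → ℝ) 0 : ℝ) * Complex.I) ^ b = 1 := by
        rw [← Complex.exp_nat_mul, ← Complex.exp_nat_mul, ← Complex.exp_add]
        simp only [Matrix.cons_val_one, Matrix.cons_val_zero, Matrix.cons_val]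
        push_cast
        rw [← Complex.exp_zero]
        congr 1
        ring
      have h3 : ∀ c x y X Y : ℂ, X ^ a * Y ^ b = 1 →
          c * (X * x) ^ a * (Y * y) ^ b = c * x ^ a * y ^ b := by
        intro c x y X Y h
        rw [mul_pow, mul_pow]
        linear_combination (c * x ^ a * y ^ b) * h
      show (1 + _ * (_ * z 0) ^ a * (_ * z 1) ^ b) / (1 - _ * (_ * z 0) ^ a * (_ * z 1) ^ b) =
        (1 + _ * z 0 ^ a * z 1 ^ b) / (1 - _ * z 0 ^ a * z 1 ^ b)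
      rw [h3 _ _ _ _ _ h2]
  | quad =>
    obtain ⟨δ, hC⟩ := chn
    refine ⟨dag_nmat 1, ⟨![1, 0, 0], ?_⟩, inv_congr (dag_nmat 1) (fun z hz => (fX_cay_one hz).1)
      fun z hz s => inv_of_chart hC (T := nmat 1) (r := 1) (fun w ζ hw hζ s => by
        rw [fln 1 one_ne_zero w ζ hw hζ s, mul_one, one_mul]) 1 hz s⟩
    show (Matrix.of ![![1, 0, 0], nmat 1 *ᵥ ![1, 0, 0], nmat 1 *ᵥ (nmat 1 *ᵥ ![1, 0, 0])]).det ≠ 0
    rw [Matrix.det_fin_three]
    simp [nmat, dotProduct, Fin.sum_univ_three]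
  | quadInv =>
    obtain ⟨δ, hC⟩ := chn
    refine ⟨dag_nmat 1, ⟨![1, 0, 0], ?_⟩, inv_congr (dag_nmat 1) (fun z hz => (fX_cay_one hz).2)
      fun z hz s => inv_of_chart hC (T := nmat 1) (r := 1) (fun w ζ hw hζ s => by
        rw [fln 1 one_ne_zero w ζ hw hζ s, mul_one, one_mul]) (-1) hz s⟩
    show (Matrix.of ![![1, 0, 0], nmat 1 *ᵥ ![1, 0, 0], nmat 1 *ᵥ (nmat 1 *ᵥ ![1, 0, 0])]).det ≠ 0
    rw [Matrix.det_fin_three]
    simp [nmat, dotProduct, Fin.sum_univ_three]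
  | hyp θ =>
    obtain ⟨δ, hC⟩ := chh θ
    refine ⟨dag_hmat θ 1, ⟨![1, 0, 1], ?_⟩,
      fun z hz s => inv_of_chart hC (T := hmat θ 1) (r := 2) (fun w ζ hw hζ s => by
        have h2 := H82L.flh θ 1 one_ne_zero w ζ hw (by rwa [div_one]) s
        rwa [div_one, mul_one] at h2) 1 hz s⟩
    show (Matrix.of ![![1, 0, 1], hmat θ 1 *ᵥ ![1, 0, 1],
      hmat θ 1 *ᵥ (hmat θ 1 *ᵥ ![1, 0, 1])]).det ≠ 0
    have e : (Matrix.of ![![1, 0, 1], hmat θ 1 *ᵥ ![1, 0, 1],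
      hmat θ 1 *ᵥ (hmat θ 1 *ᵥ ![1, 0, 1])]).det = ((θ ^ 2 + 1 : ℝ) : ℂ) := by
      rw [Matrix.det_fin_three]
      simp [hmat, dotProduct, Fin.sum_univ_three]
      ring
    rw [e]
    exact_mod_cast (by positivity : (θ ^ 2 + 1 : ℝ) ≠ 0)
  | par =>
    obtain ⟨δ, hC⟩ := chp 1 one_pos
    rw [fPm_one] at hC
    refine ⟨dag_pmat (-2) 1, ⟨![1, 0, 1], ?_⟩,
      fun z hz s => inv_of_chart hC (T := pmat (-2) 1) (r := 2) (fun w ζ hw hζ s => by
        have e1 : -(-2 : ℝ) / (2 * 1) = 1 := by norm_num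
        have h2 := flp (-2) 1 one_ne_zero (by norm_num) w ζ hw (by rwa [e1]) s
        rwa [e1, mul_one] at h2) 1 hz s⟩
    show (Matrix.of ![![1, 0, 1], pmat (-2) 1 *ᵥ ![1, 0, 1],
      pmat (-2) 1 *ᵥ (pmat (-2) 1 *ᵥ ![1, 0, 1])]).det ≠ 0
    rw [Matrix.det_fin_three]
    simp [pmat, dotProduct, Fin.sum_univ_three]
    norm_num

end

end Pool.Agent.Lib.MP_6ff8d9_an.N2
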