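import Pool.Agent.Lib.MP_6ff8d9_an_h8.SymD
import Pool.Agent.Lib.MP_6ff8d9_an_h23.Fin2

/-!
# MP_6ff8d9, dimension 2: the classification without repetitions, assembly
-/

open Metric Filter Topology MvPolynomial Matrix
open scoped ComplexConjugate

namespace Pool.Agent.Lib.MP_6ff8d9_an.N2

open Pool.Agent.Lib.MP_6ff8d9_an Pool.Agent.Lib.MP_6ff8d9_an.H22

noncomputable section

lemma equi_congr {g g' G G' : Cn 2 → ℂ} (hg : ∀ z ∈ ball (0 : Cn 2) 1, g z = g' z)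
    (hG : ∀ z ∈ ball (0 : Cn 2) 1, G z = G' z) (h : Equi g' G') : Equi g G := by
  obtain ⟨φ, ψ, hB, he⟩ := h
  refine ⟨φ, ψ, hB, fun z hz => ?_⟩
  rw [hg z hz, he z hz]
  exact nrm_congr hB.mφ (fun w hw => (hG w hw).symm) hz

lemma listFour_ext {G : Cn 2 → ℂ} (h : ListFour G) : IsExtremePoint 2 G := by
  rcases h with ⟨a, b, c, ha, hb, hab, hc, rfl⟩ | ⟨c, hc, rfl⟩ | ⟨θ, c, hc, rfl⟩ | ⟨c, hc, rfl⟩
  · exact H50M.mono a b c ha hb hab hc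
  · obtain ⟨δ, hC⟩ := chn
    exact chx _ _ _ _ _ hC c hc
  · obtain ⟨δ, hC⟩ := chh θ
    exact chx _ _ _ _ _ hC c hc
  · obtain ⟨δ, hC⟩ := chp 1 one_pos
    rw [fPm_one] at hC
    exact chx _ _ _ _ _ hC c hc

/-- the members of the list are extreme -/
lemma fn_ext (hF : FNL) {i : Idx} (hi : i.Adm) : IsExtremePoint 2 i.fn := by
  obtain ⟨G, hG, h⟩ := (hF i hi).1
  exact ext_congr h (listFour_ext hG)

/-- the members of the list are not constant -/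
lemma fn_nc (hF : FNL) {i : Idx} (hi : i.Adm) : ∃ z ∈ ball (0 : Cn 2) 1, i.fn z ≠ i.fn 0 := by
  by_contra hcon
  push Not at hcon
  have h1 := fn_ext hF hi
  refine H23.one_not_extreme (n := 2) (by norm_num) i.fn (fun z hz => ?_) h1
  rw [hcon z hz, h1.1.2.2]

/-- the index is unique -/
lemma idx_unique (hF : FNL) (hE : EQT) (hS : STB) (hSp : SPEC) (hQ : QXI) (hCa : CARTAN)
    {g : Cn 2 → ℂ} {i j : Idx} (hi : i.Adm) (hj : j.Adm) (h1 : Equi g i.fn)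
    (h2 : Equi g j.fn) : i = j := by
  have hie := fn_ext hF hi
  have hje := fn_ext hF hj
  have h3 : Equi i.fn g := hE.2 g i.fn hie.1 h1
  have h4 : Equi i.fn j.fn := hE.1 _ _ _ hje.1 h3 h2
  obtain ⟨φ, ψ, hB, he⟩ := h4
  obtain ⟨A, hA', hφ⟩ := hCa φ ψ hB
  have hA : JU A := hA'
  have he' : ∀ z ∈ ball (0 : Cn 2) 1, i.fn z = nrm j.fn (actC A) z := by
    intro z hz
    rw [he z hz]
    unfold nrm
    rw [hφ z hz, hφ 0 (mem_ball_self one_pos)]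
  obtain ⟨hid, hic, hii⟩ := gen i hi
  obtain ⟨hjd, hjc, hji⟩ := gen j hj
  have hTA : j.T * A = A * ((0 : ℂ) • (1 : Matrix (Fin 3) (Fin 3) ℂ) + A⁻¹ * j.T * A) := by
    rw [zero_smul, zero_add, mul_assoc A⁻¹, ← mul_assoc A, hA.mul_inv, one_mul]
  have hg := (gcon j.T (A⁻¹ * j.T * A) A 0 hA' hjd hTA).2
  have hinv : ∀ z ∈ ball (0 : Cn 2) 1, ∀ s : ℝ,
      nrm j.fn (actC A) (actC (grp (A⁻¹ * j.T * A) (s * Complex.I)) z) =
        nrm j.fn (actC A) z := by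
    intro z hz s
    have h1 := hg _ (ball_iff.1 hz) s
    have h2 : actC A (actC (grp (A⁻¹ * j.T * A) (s * Complex.I)) z) =
        actC (grp j.T (s * Complex.I)) (actC A z) := by
      show WithLp.toLp 2 (act A (act (grp (A⁻¹ * j.T * A) (s * Complex.I)) fun i => z i)) = _
      rw [h1]
      rfl
    have h3 : j.fn (actC (grp j.T (s * Complex.I)) (actC A z)) = j.fn (actC A z) :=
      hji _ ((proj A hA).2.mφ z hz) s
    unfold nrm
    rw [h2, h3]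
  have hinv' := inv_congr (hA.dag_conj hjd) he' hinv
  obtain ⟨lam, mu, hlm⟩ := hS i.fn (A⁻¹ * j.T * A) i.T hie.1 (fn_nc hF hi) (hA.dag_conj hjd) hid
    hic hinv' hii
  have hjA : j.T * A = A * ((lam : ℂ) • i.T + (mu : ℂ) • (1 : Matrix (Fin 3) (Fin 3) ℂ)) := by
    rw [← hlm, mul_assoc A⁻¹, ← mul_assoc A, hA.mul_inv, one_mul]
  rcases hSp i j hi hj A lam mu hA' hjA with h | ⟨hi' | hi', hj' | hj'⟩
  · exact h
  · rw [hi', hj']
  · exfalso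
    subst hi' hj'
    exact (hQ A lam mu hA' hjA).1 he'
  · exfalso
    subst hi' hj'
    exact (hQ A lam mu hA' hjA).2 he'
  · rw [hi', hj']

/-- the final theorem from the rows -/
theorem final_can (h1 : CAN1) (h2 : CAN2) (h3 : CAN3) (h4 : CAN4) (hF : FNL) (hE : EQT)
    (hR : RATL) (hS : STB) (hSp : SPEC) (hQ : QXI) (hCa : CARTAN) : FINALCAN := by
  have canTwo : ∀ G : Cn 2 → ℂ, ListTwo G → ∃ i : Idx, (i.Adm ∧ i.Alg) ∧ Equi G i.fn := by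
    rintro G (⟨a, b, c, ha, hb, hab, hc, rfl⟩ | ⟨c, hc, rfl⟩)
    · obtain ⟨a', b', had, he⟩ := h1 a b c ha hb hab hc
      exact ⟨_, ⟨had, trivial⟩, he⟩
    · rcases h2 c hc with he | he
      · exact ⟨.quad, ⟨trivial, trivial⟩, he⟩
      · exact ⟨.quadInv, ⟨trivial, trivial⟩, he⟩
  have canFour : ∀ G : Cn 2 → ℂ, ListFour G → ∃ i : Idx, i.Adm ∧ Equi G i.fn := by
    rintro G (h | ⟨c, hc, rfl⟩ | ⟨θ, c, hc, rfl⟩ | ⟨c, hc, rfl⟩)
    · obtain ⟨i, ⟨hi, -⟩, he⟩ := canTwo G (Or.inl h)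
      exact ⟨i, hi, he⟩
    · obtain ⟨i, ⟨hi, -⟩, he⟩ := canTwo _ (Or.inr ⟨c, hc, rfl⟩)
      exact ⟨i, hi, he⟩
    · exact ⟨.hyp |θ|, abs_nonneg θ, h3 θ c hc⟩
    · exact ⟨.par, trivial, h4 c hc⟩
  have hrat : ∀ g : Cn 2 → ℂ, IsExtremePoint 2 g → Rat g →
      ∃ i : Idx, (i.Adm ∧ i.Alg) ∧ Equi g i.fn := by
    intro g hext ⟨p, q, hpq⟩
    have hext' : IsExtremePoint 2
        (fun z => eval (fun i => z i) p / eval (fun i => z i) q) :=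
      ext_congr (fun z hz => (hpq z hz).symm) hext
    obtain ⟨G, φ, ψ, hG, hB, hg⟩ := (finaltwo p q).1 hext'
    obtain ⟨i, hi, he⟩ := canTwo G hG
    exact ⟨i, hi, hE.1 g G i.fn (fn_ext hF hi.1).1
      ⟨φ, ψ, hB, fun z hz => by rw [hpq z hz]; exact hg z hz⟩ he⟩
  have hsym : ∀ g : Cn 2 → ℂ, IsExtremePoint 2 g → Sym g → ∃ i : Idx, i.Adm ∧ Equi g i.fn := by
    intro g hext hs
    obtain ⟨G, φ, ψ, hG, hB, hg⟩ := (finalsym8 g).1 ⟨hext, hs⟩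
    obtain ⟨i, hi, he⟩ := canFour G hG
    exact ⟨i, hi, hE.1 g G i.fn (fn_ext hF hi).1 ⟨φ, ψ, hB, hg⟩ he⟩
  have hback : ∀ (g : Cn 2 → ℂ) (i : Idx), i.Adm → Equi g i.fn → IsExtremePoint 2 g ∧ Sym g := by
    intro g i hi ⟨φ, ψ, hB, he⟩
    obtain ⟨G, hG, hGi⟩ := (hF i hi).1
    refine (finalsym8 g).2 ⟨G, φ, ψ, hG, hB, fun z hz => ?_⟩
    rw [he z hz]
    exact nrm_congr hB.mφ hGi hz
  intro g
  constructor
  · constructor
    · rintro ⟨hext, hsr⟩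
      obtain ⟨i, hi, he⟩ : ∃ i : Idx, i.Adm ∧ Equi g i.fn := by
        rcases hsr with hs | hr
        · exact hsym g hext hs
        · obtain ⟨i, hi, he⟩ := hrat g hext hr
          exact ⟨i, hi.1, he⟩
      exact ⟨i, ⟨hi, he⟩, fun j hj => idx_unique hF hE hS hSp hQ hCa hj.1 hi hj.2 he⟩
    · rintro ⟨i, ⟨hi, he⟩, -⟩
      obtain ⟨h5, h6⟩ := hback g i hi he
      exact ⟨h5, Or.inl h6⟩
  · constructor
    · rintro ⟨hext, hr⟩
      obtain ⟨i, hi, he⟩ := hrat g hext hr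
      exact ⟨i, ⟨hi, he⟩, fun j hj => idx_unique hF hE hS hSp hQ hCa hj.1.1 hi.1 hj.2 he⟩
    · rintro ⟨i, ⟨hi, he⟩, -⟩
      exact ⟨(hback g i hi.1 he).1, hR g i hi.1 hi.2 he⟩

end

end Pool.Agent.Lib.MP_6ff8d9_an.N2
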