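import Pool.Agent.Lib.MP_6ff8d9_an_h8.SymC
import Pool.Agent.Lib.MP_6ff8d9_an_h8.SymRows2

/-!
# MP_6ff8d9, dimension 2: row SPEC, the types of the generators
-/

open Metric Filter Topology MvPolynomial Matrix
open scoped ComplexConjugate

namespace Pool.Agent.Lib.MP_6ff8d9_an.N2

open Pool.Agent.Lib.MP_6ff8d9_an Pool.Agent.Lib.MP_6ff8d9_an.H22

noncomputable section

namespace Spec8

/-- the characteristic polynomial of `i.T` is `x³ + cp x² + cq x` -/
def cp : Idx → ℝ
  | .mono a b => a - b
  | .quad => 0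
  | .quadInv => 0
  | .hyp θ => -(2 * θ)
  | .par => 4

def cq : Idx → ℝ
  | .mono a b => -(a * b)
  | .quad => 0
  | .quadInv => 0
  | .hyp θ => θ ^ 2 + 1
  | .par => 4

lemma det_idx (i : Idx) (lam mu : ℝ) (x : ℂ) :
    (x • (1 : Matrix (Fin 3) (Fin 3) ℂ) -
      ((lam : ℂ) • i.T + (mu : ℂ) • (1 : Matrix (Fin 3) (Fin 3) ℂ))).det =
      (x - mu) ^ 3 + cp i * lam * (x - mu) ^ 2 + cq i * lam ^ 2 * (x - mu) := by
  cases i with
  | mono a b =>
    rw [Matrix.det_fin_three]
    simp [Idx.T, cp, cq, Matrix.diagonal]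
    ring
  | quad =>
    rw [Matrix.det_fin_three]
    simp [Idx.T, cp, cq, nmat]
    ring
  | quadInv =>
    rw [Matrix.det_fin_three]
    simp [Idx.T, cp, cq, nmat]
    ring
  | hyp θ =>
    rw [Matrix.det_fin_three]
    simp [Idx.T, cp, cq, hmat]
    ring
  | par =>
    rw [Matrix.det_fin_three]
    simp [Idx.T, cp, cq, pmat]
    ring

lemma not_scal (i : Idx) (hi : i.Adm) (c : ℂ) : i.T ≠ c • (1 : Matrix (Fin 3) (Fin 3) ℂ) := by
  cases i with
  | mono a b =>
    refine not_scalar (i := 0) (j := 1) (Or.inr ?_) c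
    have hb : 1 ≤ b := hi.1.trans hi.2.1
    have hb' : (b : ℂ) ≠ 0 := by exact_mod_cast (by omega : b ≠ 0)
    simpa [Idx.T] using hb'.symm
  | quad => exact not_scalar (i := 0) (j := 2) (Or.inl (by simp [Idx.T, nmat])) c
  | quadInv => exact not_scalar (i := 0) (j := 2) (Or.inl (by simp [Idx.T, nmat])) c
  | hyp θ => exact not_scalar (i := 0) (j := 1) (Or.inl (by simp [Idx.T, hmat])) c
  | par => exact not_scalar (i := 0) (j := 1) (Or.inl (by simp [Idx.T, pmat])) c

/-- the relations of the coefficients -/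
lemma rels {i j : Idx} (hj : j.Adm) {A : Matrix (Fin 3) (Fin 3) ℂ} {lam mu : ℝ} (hA : JU A)
    (h : j.T * A = A * ((lam : ℂ) • i.T + (mu : ℂ) • (1 : Matrix (Fin 3) (Fin 3) ℂ))) :
    lam ≠ 0 ∧ cp j = cp i * lam - 3 * mu ∧
      cq j = 3 * mu ^ 2 - 2 * mu * (cp i * lam) + cq i * lam ^ 2 ∧
      -mu ^ 3 + cp i * lam * mu ^ 2 - cq i * lam ^ 2 * mu = 0 := by
  have key : ∀ x : ℝ, (x - mu) ^ 3 + cp i * lam * (x - mu) ^ 2 + cq i * lam ^ 2 * (x - mu) =
      x ^ 3 + cp j * x ^ 2 + cq j * x := by
    intro x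
    have h1 : ((x : ℂ) • (1 : Matrix (Fin 3) (Fin 3) ℂ) -
        (((1 : ℝ) : ℂ) • j.T + ((0 : ℝ) : ℂ) • (1 : Matrix (Fin 3) (Fin 3) ℂ))) * A =
        A * ((x : ℂ) • (1 : Matrix (Fin 3) (Fin 3) ℂ) -
          ((lam : ℂ) • i.T + (mu : ℂ) • (1 : Matrix (Fin 3) (Fin 3) ℂ))) := by
      rw [Complex.ofReal_one, Complex.ofReal_zero, one_smul, zero_smul, add_zero, sub_mul,
        mul_sub, h]
      simp
    have h2 := congrArg Matrix.det h1
    rw [Matrix.det_mul, Matrix.det_mul, mul_comm, det_idx, det_idx] at h2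
    have h3 := mul_left_cancel₀ hA.isUnit_det.ne_zero h2
    have h4 : (((x - mu) ^ 3 + cp i * lam * (x - mu) ^ 2 + cq i * lam ^ 2 * (x - mu) : ℝ) : ℂ) =
        ((x ^ 3 + cp j * x ^ 2 + cq j * x : ℝ) : ℂ) := by
      push_cast at h3 ⊢
      linear_combination -h3
    exact_mod_cast h4
  have k0 := key 0
  have k1 := key 1
  have k2 := key (-1)
  refine ⟨?_, by linarith, by linarith, by linarith⟩
  rintro rfl
  rw [Complex.ofReal_zero, zero_smul, zero_add] at h
  exact not_scal j hj _ (scalar_of hA h)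

end Spec8

open Spec8 in
/-- row SPEC -/
theorem spec : SPEC := by
  intro i j hi hj A lam mu hA h
  obtain ⟨hl, h1, h2, h0⟩ := rels hj hA h
  have hl2 : 0 < lam ^ 2 := by positivity
  have hl6 : 0 < lam ^ 6 := by positivity
  have hdisc : cq j ^ 2 * (cp j ^ 2 - 4 * cq j) =
      lam ^ 6 * (cq i ^ 2 * (cp i ^ 2 - 4 * cq i)) := by
    rw [h1, h2]
    linear_combination (4 * (cp i * lam - 3 * mu) ^ 3 -
      18 * (cp i * lam - 3 * mu) * (3 * mu ^ 2 - 2 * mu * (cp i * lam) + cq i * lam ^ 2) +
      27 * (-mu ^ 3 + cp i * lam * mu ^ 2 - cq i * lam ^ 2 * mu)) * h0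
  have htri : cp j ^ 2 - 3 * cq j = lam ^ 2 * (cp i ^ 2 - 3 * cq i) := by
    rw [h1, h2]
    ring
  have dmono : ∀ a b : ℕ, (Idx.mono a b).Adm →
      0 < cq (.mono a b) ^ 2 * (cp (.mono a b) ^ 2 - 4 * cq (.mono a b)) := by
    intro a b hab
    have ha : (0 : ℝ) < a := by exact_mod_cast hab.1
    have hb : (0 : ℝ) < b := by exact_mod_cast hab.1.trans hab.2.1
    have e : cq (.mono a b) ^ 2 * (cp (.mono a b) ^ 2 - 4 * cq (.mono a b)) =
        ((a : ℝ) * b * (a + b)) ^ 2 := by
      simp only [cq, cp]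
      ring
    rw [e]
    positivity
  have dhyp : ∀ θ : ℝ, cq (.hyp θ) ^ 2 * (cp (.hyp θ) ^ 2 - 4 * cq (.hyp θ)) < 0 := by
    intro θ
    have e : cq (.hyp θ) ^ 2 * (cp (.hyp θ) ^ 2 - 4 * cq (.hyp θ)) =
        -(4 * (θ ^ 2 + 1) ^ 2) := by
      simp only [cq, cp]
      ring
    rw [e]
    have : 0 < (θ ^ 2 + 1) ^ 2 := by positivity
    linarith
  have dpar : cq .par ^ 2 * (cp .par ^ 2 - 4 * cq .par) = 0 := by
    simp only [cq, cp]; norm_num
  have dquad : cq .quad ^ 2 * (cp .quad ^ 2 - 4 * cq .quad) = 0 := by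
    simp only [cq, cp]; norm_num
  have dquadInv : cq .quadInv ^ 2 * (cp .quadInv ^ 2 - 4 * cq .quadInv) = 0 := by
    simp only [cq, cp]; norm_num
  cases i with
  | mono a b =>
    have hpos := mul_pos hl6 (dmono a b hi)
    rw [← hdisc] at hpos
    cases j with
    | mono a' b' =>
      left
      have ha : (0 : ℝ) < a := by exact_mod_cast hi.1
      have hb : (0 : ℝ) < b := by exact_mod_cast hi.1.trans hi.2.1
      have ha' : (0 : ℝ) < a' := by exact_mod_cast hj.1
      have hb' : (0 : ℝ) < b' := by exact_mod_cast hj.1.trans hj.2.1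
      simp only [cp, cq] at h0 h1 h2
      have root : ∀ x : ℝ, (x - mu) * ((x - mu) - lam * b) * ((x - mu) + lam * a) = 0 →
          x = 0 ∨ x = b' ∨ x = -a' := by
        intro x hx
        have e : x * (x - b') * (x + a') = 0 := by
          have e2 : x * (x - b') * (x + a') =
              (x - mu) * ((x - mu) - lam * b) * ((x - mu) + lam * a) := by
            linear_combination (x ^ 2) * h1 + x * h2 - h0
          rw [e2, hx]
        rcases mul_eq_zero.1 e with e3 | e3
        · rcases mul_eq_zero.1 e3 with e4 | e4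
          · exact Or.inl e4
          · exact Or.inr (Or.inl (by linarith))
        · exact Or.inr (Or.inr (by linarith))
      have r0 := root mu (by ring)
      have r1 := root (mu + lam * b) (by ring)
      have r2 := root (mu - lam * a) (by ring)
      rcases lt_or_gt_of_ne hl with hneg | hposl
      · have m1 : lam * b < 0 := mul_neg_of_neg_of_pos hneg hb
        have m2 : lam * a < 0 := mul_neg_of_neg_of_pos hneg ha
        have hmu : mu = 0 ∧ mu + lam * b = -a' ∧ mu - lam * a = b' := by
          rcases r0 with r0 | r0 | r0 <;> rcases r1 with r1 | r1 | r1 <;>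
            rcases r2 with r2 | r2 | r2 <;>
            exact ⟨by linarith, by linarith, by linarith⟩
        obtain ⟨hmu0, e1, e2⟩ := hmu
        have e3 : (a' : ℝ) * a = b' * b := by
          have : (a' : ℝ) = -(lam * b) := by linarith
          have : (b' : ℝ) = -(lam * a) := by linarith
          nlinarith
        have e4 : a' * a = b' * b := by exact_mod_cast e3
        have hab : a = b := by
          by_contra hne
          have hlt : a < b := lt_of_le_of_ne hi.2.1 hne
          have : a' * a < b' * b := by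
            calc a' * a < a' * b := Nat.mul_lt_mul_of_pos_left hlt hj.1
              _ ≤ b' * b := Nat.mul_le_mul_right _ hj.2.1
          omega
        have hab' : a' = b' := by
          by_contra hne
          have hlt : a' < b' := lt_of_le_of_ne hj.2.1 hne
          have : a' * a < b' * b := by
            calc a' * a < b' * a := Nat.mul_lt_mul_of_pos_right hlt hi.1
              _ ≤ b' * b := Nat.mul_le_mul_left _ hi.2.1
          omega
        have h3 : a.Coprime b := hi.2.2
        have h4 : a'.Coprime b' := hj.2.2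
        rw [hab, Nat.coprime_self] at h3
        rw [hab', Nat.coprime_self] at h4
        rw [hab, hab', h3, h4]
      · have m1 : 0 < lam * b := mul_pos hposl hb
        have m2 : 0 < lam * a := mul_pos hposl ha
        have hmu : mu = 0 ∧ mu + lam * b = b' ∧ mu - lam * a = -a' := by
          rcases r0 with r0 | r0 | r0 <;> rcases r1 with r1 | r1 | r1 <;>
            rcases r2 with r2 | r2 | r2 <;>
            exact ⟨by linarith, by linarith, by linarith⟩
        obtain ⟨hmu0, e1, e2⟩ := hmu
        have e3 : (a' : ℝ) * b = b' * a := by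
          have e5 : (a' : ℝ) = lam * a := by linarith
          have e6 : (b' : ℝ) = lam * b := by linarith
          rw [e5, e6]
          ring
        have e4 : a' * b = b' * a := by exact_mod_cast e3
        have h3 : a.Coprime b := hi.2.2
        have h4 : a'.Coprime b' := hj.2.2
        have d1 : a ∣ a' := h3.dvd_of_dvd_mul_right (by rw [e4]; exact Dvd.intro_left _ rfl)
        have d2 : a' ∣ a := h4.dvd_of_dvd_mul_left (by rw [← e4]; exact Dvd.intro _ rfl)
        have haa : a = a' := Nat.dvd_antisymm d1 d2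
        have hbb : b = b' := by
          rw [← haa, mul_comm] at e4
          exact Nat.eq_of_mul_eq_mul_right hi.1 e4
        rw [haa, hbb]
    | quad => rw [dquad] at hpos; exact absurd hpos (lt_irrefl _)
    | quadInv => rw [dquadInv] at hpos; exact absurd hpos (lt_irrefl _)
    | hyp θ => exact absurd hpos (not_lt.2 (dhyp θ).le)
    | par => rw [dpar] at hpos; exact absurd hpos (lt_irrefl _)
  | quad =>
    rw [dquad, mul_zero] at hdisc
    cases j with
    | mono a b => exact absurd hdisc (dmono a b hj).ne'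
    | quad => exact Or.inl rfl
    | quadInv => exact Or.inr ⟨Or.inl rfl, Or.inr rfl⟩
    | hyp θ => exact absurd hdisc (dhyp θ).ne
    | par => simp only [cp, cq] at htri; norm_num at htri
  | quadInv =>
    rw [dquadInv, mul_zero] at hdisc
    cases j with
    | mono a b => exact absurd hdisc (dmono a b hj).ne'
    | quad => exact Or.inr ⟨Or.inr rfl, Or.inl rfl⟩
    | quadInv => exact Or.inl rfl
    | hyp θ => exact absurd hdisc (dhyp θ).ne
    | par => simp only [cp, cq] at htri; norm_num at htri
  | hyp θ =>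
    have hneg : lam ^ 6 * (cq (.hyp θ) ^ 2 * (cp (.hyp θ) ^ 2 - 4 * cq (.hyp θ))) < 0 :=
      mul_neg_of_pos_of_neg hl6 (dhyp θ)
    rw [← hdisc] at hneg
    cases j with
    | mono a b => exact absurd hneg (not_lt.2 (dmono a b hj).le)
    | quad => rw [dquad] at hneg; exact absurd hneg (lt_irrefl _)
    | quadInv => rw [dquadInv] at hneg; exact absurd hneg (lt_irrefl _)
    | hyp θ' =>
      left
      have hθ : 0 ≤ θ := hi
      have hθ' : 0 ≤ θ' := hj
      simp only [cp, cq] at h0 h1 h2
      have hmu : mu = 0 := by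
        have e : mu * ((mu + θ * lam) ^ 2 + lam ^ 2) = 0 := by linear_combination -h0
        rcases mul_eq_zero.1 e with e1 | e1
        · exact e1
        · exfalso
          nlinarith [sq_nonneg (mu + θ * lam)]
      subst hmu
      have e1 : θ' = θ * lam := by linarith
      have e2 : lam ^ 2 = 1 := by
        rw [e1] at h2
        linarith
      have e3 : θ' ^ 2 = θ ^ 2 := by
        rw [e1, mul_pow, e2, mul_one]
      rw [(sq_eq_sq₀ hθ' hθ).1 e3]
    | par => rw [dpar] at hneg; exact absurd hneg (lt_irrefl _)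
  | par =>
    rw [dpar, mul_zero] at hdisc
    cases j with
    | mono a b => exact absurd hdisc (dmono a b hj).ne'
    | quad => simp only [cp, cq] at htri; norm_num at htri; exact absurd htri hl
    | quadInv => simp only [cp, cq] at htri; norm_num at htri; exact absurd htri hl
    | hyp θ => exact absurd hdisc (dhyp θ).ne
    | par => exact Or.inl rfl

end

end Pool.Agent.Lib.MP_6ff8d9_an.N2
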