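import Pool.Agent.Lib.MP_6ff8d9_an_h8.SymE
import Pool.Agent.Lib.MP_6ff8d9_an_h8.SymCan1
import Pool.Agent.Lib.MP_6ff8d9_an_h8.SymSpec
import Pool.Agent.Lib.MP_6ff8d9_an_h82.SymCan
import Pool.Agent.Lib.MP_6ff8d9_an_h22.SymCan2
import Pool.Agent.Lib.MP_6ff8d9_an_h77.SymEqt
import Pool.Agent.Lib.MP_6ff8d9_an_h46.SymRatl
import Pool.Agent.Lib.MP_6ff8d9_an_h69.SymQxi
import Pool.Agent.Lib.MP_6ff8d9_an_h21r.SymStb

/-!
# MP_6ff8d9, dimension 2: the classification without repetitions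
-/

namespace Pool.Agent.Lib.MP_6ff8d9_an.N2

/-- the final theorem from the last row -/
theorem fincan_of (hS : STB) : FINALCAN :=
  final_can can1 can2 H82L.can3 H82L.can4 fnl eqt ratl hS spec qxi cartan

/-- the classification -/
theorem fincan : FINALCAN := fincan_of stb

end Pool.Agent.Lib.MP_6ff8d9_an.N2
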